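import Pool.Agent.Confl.StepC

/-!
# Three chords: the crossings in order (G1, G2, G3)
-/

set_option autoImplicit false

namespace Pool.Agent.Confl

variable {V : Type}

/-- If R is behind Q on c -> d, then at Q the chord ab is on the other side of ef than c. -/
theorem tri_core {x : V → ℝ} (hx : Function.Injective x) {a b c d e f : V}
    (h1 : Alt x a b c d) (h2 : Alt x c d e f)
    (hQR : 0 < (X x c d e f - X x a b c d) * (x d - x c)) :
    (q x a b (X x a b c d) - q x e f (X x a b c d)) * q x e f (x c) < 0 := by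
  have hR := alt_X_mem hx h2
  have hsum := alt_sum_ne hx h2
  have hsumQ := alt_sum_ne hx h1
  have hQ1 := q_sub_stepC hsumQ (X x a b c d)
  have hR1 := q_sub_stepC hsum (X x a b c d)
  have hR2 := q_sub_stepC hsum (x c)
  have hN1 : (x e + x f) - (x c + x d) ≠ 0 := sub_ne_zero.2 hsum.symm
  have q1 : q x c d (x c) = 0 := by simp [q]
  generalize hQdef : X x a b c d = Q at *
  generalize hRdef : X x c d e f = R at *
  have hpos2 : 0 < (Q - R) * (x c - R) := by
    rcases mul_pos_iff.1 hQR with ⟨e1, e2⟩ | ⟨e1, e2⟩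
    · have e3 : x c - R < 0 := by
        by_contra hcon
        have : 0 ≤ (x c - R) * (x d - R) := mul_nonneg (by linarith) (by linarith)
        linarith
      exact mul_pos_of_neg_of_neg (by linarith) e3
    · have e3 : 0 < x c - R := by
        by_contra hcon
        have : 0 ≤ (x c - R) * (x d - R) :=
          mul_nonneg_of_nonpos_of_nonpos (by linarith) (by linarith)
        linarith
      exact mul_pos (by linarith) e3
  have e1 : q x a b Q - q x e f Q = ((x e + x f) - (x c + x d)) * (Q - R) := by
    have : q x a b Q - q x c d Q = 0 := by rw [hQ1]; ring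
    linarith
  have e2 : q x e f (x c) = -(((x e + x f) - (x c + x d)) * (x c - R)) := by
    rw [q1] at hR2; linarith
  rw [e1, e2]
  have e3 : 0 < ((x e + x f) - (x c + x d)) ^ 2 := by positivity
  have e4 : ((x e + x f) - (x c + x d)) * (Q - R) *
      -(((x e + x f) - (x c + x d)) * (x c - R)) =
      -(((x e + x f) - (x c + x d)) ^ 2 * ((Q - R) * (x c - R))) := by ring
  rw [e4]
  exact neg_neg_of_pos (mul_pos e3 hpos2)

/-- The difference of two chords is affine: interpolation between the ends of ab. -/
theorem diff_interp (x : V → ℝ) (a b e f : V) (t : ℝ) :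
    (q x a b t - q x e f t) * (x b - x a) =
      -(q x e f (x a)) * (x b - t) + -(q x e f (x b)) * (t - x a) := by
  unfold q; ring

theorem interp_sign {A B D u v w : ℝ} (hD : D * w = A * u + B * v) (huv : 0 < u * v)
    (hw : w = u + v) (hAD : A * D < 0) : A * B < 0 := by
  have h1 : D * D * w = A * D * u + B * D * v := by
    calc D * D * w = D * (D * w) := by ring
      _ = D * (A * u + B * v) := by rw [hD]
      _ = _ := by ring
  have hD0 : D ≠ 0 := by rintro rfl; simp at hAD
  have hDD : 0 < D * D := mul_self_pos.2 hD0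
  have hBD : 0 < B * D := by
    rcases mul_pos_iff.1 huv with ⟨hu, hv⟩ | ⟨hu, hv⟩
    · have h2 : 0 < D * D * w := mul_pos hDD (by rw [hw]; linarith)
      have h3 : A * D * u < 0 := mul_neg_of_neg_of_pos hAD hu
      by_contra hcon
      have h4 : B * D * v ≤ 0 := mul_nonpos_of_nonpos_of_nonneg (not_lt.1 hcon) hv.le
      linarith
    · have h2 : D * D * w < 0 := mul_neg_of_pos_of_neg hDD (by rw [hw]; linarith)
      have h3 : 0 < A * D * u := mul_pos_of_neg_of_neg hAD hu
      by_contra hcon
      have h4 : 0 ≤ B * D * v := mul_nonneg_of_nonpos_of_nonpos (not_lt.1 hcon) hv.le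
      linarith
  have h5 : (A * B) * (D * D) < 0 := by
    calc (A * B) * (D * D) = (A * D) * (B * D) := by ring
      _ < 0 := mul_neg_of_neg_of_pos hAD hBD
  by_contra hcon
  exact absurd h5 (not_lt.2 (mul_nonneg (not_lt.1 hcon) hDD.le))

/-- G1. Chords ab, cd cross at Q, chords cd, ef cross at R, Q is before R on c -> d, and ab, ef do
not cross: then neither a nor b is strictly on the other side of ef than c. -/
theorem tri_apart {x : V → ℝ} (hx : Function.Injective x) {a b c d e f : V}
    (h1 : Alt x a b c d) (h2 : Alt x c d e f) (hn : ¬ Alt x a b e f)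
    (hQR : 0 < (X x c d e f - X x a b c d) * (x d - x c)) :
    ¬ Alt x e f c a ∧ ¬ Alt x e f c b := by
  have hcore := tri_core hx h1 h2 hQR
  have hQ := alt_X_mem hx h1
  have hint := diff_interp x a b e f (X x a b c d)
  generalize X x a b c d = Q at *
  have huv : 0 < (x b - Q) * (Q - x a) := by
    have e : (x b - Q) * (Q - x a) = -((x a - Q) * (x b - Q)) := by ring
    rw [e]; exact neg_pos.2 hQ
  have hn' : ¬ q x e f (x a) * q x e f (x b) < 0 := fun h =>
    hn (alt_comm hx ((alt_iff_q hx e f a b).2 h))
  generalize q x a b Q - q x e f Q = D at *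
  have hc2 : ∀ s : ℝ, q x e f (x c) * s < 0 → -s * D < 0 := by
    intro s hs
    have hc0 : q x e f (x c) ≠ 0 := by
      intro h; rw [h, zero_mul] at hs; exact lt_irrefl _ hs
    have h5 : (-s * D) * (q x e f (x c) * q x e f (x c)) < 0 := by
      calc (-s * D) * (q x e f (x c) * q x e f (x c)) =
          -((q x e f (x c) * s) * (D * q x e f (x c))) := by ring
        _ < 0 := neg_neg_of_pos (mul_pos_of_neg_of_neg hs hcore)
    by_contra hcon
    exact absurd h5 (not_lt.2 (mul_nonneg (not_lt.1 hcon) (mul_self_nonneg _)))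
  constructor
  · intro h
    rw [alt_iff_q hx] at h
    have h6 := interp_sign hint huv (by ring) (hc2 _ h)
    rw [neg_mul_neg] at h6
    exact hn' h6
  · intro h
    rw [alt_iff_q hx] at h
    have h6 := interp_sign (A := -(q x e f (x b))) (B := -(q x e f (x a))) (D := D)
      (u := Q - x a) (v := x b - Q) (w := x b - x a) (by rw [hint]; ring)
      (by rw [mul_comm]; exact huv) (by ring) (hc2 _ h)
    rw [neg_mul_neg, mul_comm] at h6
    exact hn' h6

/-- G2. The same with ab, ef crossing at T: if a and c are not on different sides of ef, then T is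
ahead of Q on a -> b. -/
theorem tri_cross {x : V → ℝ} (hx : Function.Injective x) {a b c d e f : V}
    (h1 : Alt x a b c d) (h2 : Alt x c d e f) (h3 : Alt x a b e f)
    (hQR : 0 < (X x c d e f - X x a b c d) * (x d - x c)) (hs : ¬ Alt x e f a c) :
    0 < (X x a b e f - X x a b c d) * (x b - x a) := by
  have hcore := tri_core hx h1 h2 hQR
  have hQ := alt_X_mem hx h1
  have hef := (alt_iff_q hx e f a b).1 (alt_comm hx h3)
  have hs' : 0 ≤ q x e f (x a) * q x e f (x c) := by
    rw [alt_iff_q hx] at hs
    exact not_lt.1 hs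
  have hsum3 := alt_sum_ne hx h3
  have hT := q_sub_stepC hsum3
  have q2 : q x a b (x b) = 0 := by simp [q]
  have hb : q x e f (x b) = -(((x e + x f) - (x a + x b)) * (x b - X x a b e f)) := by
    have := hT (x b)
    rw [q2] at this
    linarith
  have hD : q x a b (X x a b c d) - q x e f (X x a b c d) =
      ((x e + x f) - (x a + x b)) * (X x a b c d - X x a b e f) := hT _
  generalize X x a b c d = Q at *
  generalize X x a b e f = T at *
  rw [hD] at hcore
  have hN : 0 < ((x e + x f) - (x a + x b)) ^ 2 := by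
    have : (x e + x f) - (x a + x b) ≠ 0 := sub_ne_zero.2 hsum3.symm
    positivity
  generalize (x e + x f) - (x a + x b) = N at *
  -- D(Q) and q_ef(b) have the same sign as -q_ef(a) and so on
  have ha0 : q x e f (x a) ≠ 0 := by
    intro h; rw [h, zero_mul] at hef; exact lt_irrefl _ hef
  have hc0 : q x e f (x c) ≠ 0 := by
    intro h; rw [h, mul_zero] at hcore; exact lt_irrefl _ hcore
  have hac : 0 < q x e f (x a) * q x e f (x c) :=
    lt_of_le_of_ne hs' (Ne.symm (mul_ne_zero ha0 hc0))
  have hcb : q x e f (x c) * q x e f (x b) < 0 := by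
    have h5 : (q x e f (x c) * q x e f (x b)) * (q x e f (x a) * q x e f (x a)) < 0 := by
      calc (q x e f (x c) * q x e f (x b)) * (q x e f (x a) * q x e f (x a)) =
          (q x e f (x a) * q x e f (x c)) * (q x e f (x a) * q x e f (x b)) := by ring
        _ < 0 := mul_neg_of_pos_of_neg hac hef
    by_contra hcon
    exact absurd h5 (not_lt.2 (mul_nonneg (not_lt.1 hcon) (mul_self_nonneg _)))
  have hQb : 0 < (N * (Q - T)) * q x e f (x b) := by
    have h5 : 0 < ((N * (Q - T)) * q x e f (x b)) * (q x e f (x c) * q x e f (x c)) := by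
      calc 0 < ((N * (Q - T)) * q x e f (x c)) * (q x e f (x c) * q x e f (x b)) :=
            mul_pos_of_neg_of_neg hcore hcb
        _ = _ := by ring
    exact (mul_pos_iff_of_pos_right (mul_self_pos.2 hc0)).1 h5
  have hTb : (Q - T) * (x b - T) < 0 := by
    rw [hb] at hQb
    have e : N * (Q - T) * -(N * (x b - T)) = -(N ^ 2 * ((Q - T) * (x b - T))) := by ring
    rw [e] at hQb
    by_contra hcon
    have := mul_nonneg hN.le (not_lt.1 hcon)
    linarith
  rcases mul_neg_iff.1 hTb with ⟨e1, e2⟩ | ⟨e1, e2⟩
  · rcases mul_neg_iff.1 hQ with ⟨e3, e4⟩ | ⟨e3, e4⟩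
    · exact mul_pos_of_neg_of_neg (by linarith) (by linarith)
    · linarith
  · rcases mul_neg_iff.1 hQ with ⟨e3, e4⟩ | ⟨e3, e4⟩
    · linarith
    · exact mul_pos (by linarith) (by linarith)

theorem X_swap_right (x : V → ℝ) (a b c d : V) : X x a b d c = X x a b c d := by
  unfold X
  rw [mul_comm (x d) (x c), add_comm (x d) (x c)]

theorem q_zero_mem {x : V → ℝ} (hx : Function.Injective x) {e f w : V} (h : q x e f (x w) = 0) :
    w = e ∨ w = f := by
  unfold q at h
  rcases mul_eq_zero.1 h with h | h
  · exact Or.inl (hx (sub_eq_zero.1 h))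
  · exact Or.inr (hx (sub_eq_zero.1 h))

/-- G3. Converse of G1. -/
theorem tri_apart' {x : V → ℝ} (hx : Function.Injective x) {a b c d e f : V}
    (h1 : Alt x a b c d) (h2 : Alt x c d e f) (hn : ¬ Alt x a b e f)
    (hne1 : ¬ (a = e ∧ b = f)) (hne2 : ¬ (a = f ∧ b = e))
    (ha : ¬ Alt x e f c a) (hb : ¬ Alt x e f c b) :
    0 < (X x c d e f - X x a b c d) * (x d - x c) := by
  have hQ := alt_X_mem hx h1
  have hR := alt_X_mem hx h2
  have hab : x a ≠ x b := by
    intro h
    rw [h] at hQ
    exact absurd hQ (not_lt.2 (mul_self_nonneg _))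
  have hcd : x d - x c ≠ 0 := by
    intro h
    have h' : x c = x d := by linarith
    rw [h'] at hR
    exact absurd hR (not_lt.2 (mul_self_nonneg _))
  have hzero : ¬ (q x e f (x a) = 0 ∧ q x e f (x b) = 0) := by
    rintro ⟨ha0, hb0⟩
    rcases q_zero_mem hx ha0 with h | h <;> rcases q_zero_mem hx hb0 with h' | h'
    · exact hab (by rw [h, h'])
    · exact hne1 ⟨h, h'⟩
    · exact hne2 ⟨h, h'⟩
    · exact hab (by rw [h, h'])
  rw [alt_iff_q hx] at ha hb
  have hefcd := (alt_iff_q hx e f c d).1 (alt_comm hx h2)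
  have hn' : ¬ q x e f (x a) * q x e f (x b) < 0 := fun h =>
    hn (alt_comm hx ((alt_iff_q hx e f a b).2 h))
  by_contra hcon
  by_cases hRQ : X x c d e f = X x a b c d
  · -- the crossings coincide
    have hint := diff_interp x a b e f (X x a b c d)
    have hsum := alt_sum_ne hx h2
    have hsumQ := alt_sum_ne hx h1
    have hQ1 := q_sub_stepC hsumQ (X x a b c d)
    have hR1 := q_sub_stepC hsum (X x a b c d)
    rw [hRQ, sub_self, mul_zero] at hR1
    rw [sub_self, mul_zero] at hQ1
    have hD : q x a b (X x a b c d) - q x e f (X x a b c d) = 0 := by linarith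
    rw [hD, zero_mul] at hint
    generalize X x a b c d = Q at *
    have huv : 0 < (x b - Q) * (Q - x a) := by
      have e : (x b - Q) * (Q - x a) = -((x a - Q) * (x b - Q)) := by ring
      rw [e]; exact neg_pos.2 hQ
    have hprod : q x e f (x a) * q x e f (x a) * ((x b - Q) * (Q - x a)) +
        q x e f (x a) * q x e f (x b) * ((Q - x a) * (Q - x a)) = 0 := by
      linear_combination (q x e f (x a) * (Q - x a)) * hint
    have hQa : 0 < (Q - x a) * (Q - x a) := by
      refine mul_self_pos.2 fun h => ?_
      rw [h, mul_zero] at huv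
      exact lt_irrefl _ huv
    have h7 : 0 ≤ q x e f (x a) * q x e f (x b) * ((Q - x a) * (Q - x a)) :=
      mul_nonneg (not_lt.1 hn') hQa.le
    have h8 : 0 ≤ q x e f (x a) * q x e f (x a) * ((x b - Q) * (Q - x a)) :=
      mul_nonneg (mul_self_nonneg _) huv.le
    have h9 : q x e f (x a) * q x e f (x a) * ((x b - Q) * (Q - x a)) = 0 := by linarith
    have ha0 : q x e f (x a) = 0 := by
      rcases mul_eq_zero.1 h9 with h | h
      · exact mul_self_eq_zero.1 h
      · exact absurd h huv.ne'
    rw [ha0] at hint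
    have hb0 : q x e f (x b) = 0 := by
      have h10 : q x e f (x b) * (Q - x a) = 0 := by linarith
      rcases mul_eq_zero.1 h10 with h | h
      · exact h
      · rw [h, mul_zero] at hQa; exact absurd hQa (lt_irrefl _)
    exact hzero ⟨ha0, hb0⟩
  · -- the other order
    have h1' : Alt x a b d c := by
      rw [alt_iff_q hx] at h1 ⊢
      rw [mul_comm]; exact h1
    have h2' : Alt x d c e f := by
      have h := alt_comm hx h2
      rw [alt_iff_q hx, mul_comm, ← alt_iff_q hx] at h
      exact alt_comm hx h
    have hX1 : X x d c e f = X x c d e f := by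
      rw [X_comm_stepC x d c e f, X_swap_right, ← X_comm_stepC]
    have hQR' : 0 < (X x d c e f - X x a b d c) * (x c - x d) := by
      rw [hX1, X_swap_right x a b c d]
      have h11 : (X x c d e f - X x a b c d) * (x d - x c) ≠ 0 :=
        mul_ne_zero (sub_ne_zero.2 hRQ) hcd
      have h12 : (X x c d e f - X x a b c d) * (x d - x c) < 0 :=
        lt_of_le_of_ne (not_lt.1 hcon) h11
      have e : (X x c d e f - X x a b c d) * (x c - x d) =
          -((X x c d e f - X x a b c d) * (x d - x c)) := by ring
      rw [e]; exact neg_pos.2 h12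
    obtain ⟨hda, hdb⟩ := tri_apart hx h1' h2' hn hQR'
    rw [alt_iff_q hx] at hda hdb
    have hcd0 : q x e f (x c) ≠ 0 := by
      intro h; rw [h, zero_mul] at hefcd; exact lt_irrefl _ hefcd
    have hz : ∀ s : ℝ, ¬ q x e f (x c) * s < 0 → ¬ q x e f (x d) * s < 0 → s = 0 := by
      intro s hs1 hs2
      by_contra hs0
      have h13 : 0 ≤ (q x e f (x c) * s) * (q x e f (x d) * s) :=
        mul_nonneg (not_lt.1 hs1) (not_lt.1 hs2)
      have h14 : (q x e f (x c) * s) * (q x e f (x d) * s) < 0 := by
        have e : (q x e f (x c) * s) * (q x e f (x d) * s) =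
            (q x e f (x c) * q x e f (x d)) * (s * s) := by ring
        rw [e]
        exact mul_neg_of_neg_of_pos hefcd (mul_self_pos.2 hs0)
      linarith
    exact hzero ⟨hz _ ha hda, hz _ hb hdb⟩

end Pool.Agent.Confl
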