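import Pool.Agent.Confl.StepC

/-!
# Rotation and reflection of the order of the line
-/

set_option autoImplicit false

namespace Pool.Agent.Confl

variable {V : Type}

/-- Two coordinates whose differences agree in sign up to a sign for each point have the same
alternating quadruples. -/
theorem alt_congr_sign {x y : V → ℝ} (hx : Function.Injective x) (hy : Function.Injective y)
    (δ : V → ℝ) (hδ : ∀ w, δ w * δ w = 1)
    (h : ∀ p q, p ≠ q → 0 < δ p * δ q * (x p - x q) * (y p - y q)) (a b c d : V) :
    Alt y a b c d ↔ Alt x a b c d := by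
  rw [alt_iff_q hx, alt_iff_q hy]
  unfold q
  by_cases h1 : c = a
  · subst h1; simp
  by_cases h2 : c = b
  · subst h2; simp
  by_cases h3 : d = a
  · subst h3; simp
  by_cases h4 : d = b
  · subst h4; simp
  have key : 0 < ((x c - x a) * (x c - x b) * ((x d - x a) * (x d - x b))) *
      ((y c - y a) * (y c - y b) * ((y d - y a) * (y d - y b))) := by
    have e : (δ c * δ a * (x c - x a) * (y c - y a)) * (δ c * δ b * (x c - x b) * (y c - y b)) *
        ((δ d * δ a * (x d - x a) * (y d - y a)) * (δ d * δ b * (x d - x b) * (y d - y b))) =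
        (δ a * δ a) * (δ b * δ b) * (δ c * δ c) * (δ d * δ d) *
        (((x c - x a) * (x c - x b) * ((x d - x a) * (x d - x b))) *
        ((y c - y a) * (y c - y b) * ((y d - y a) * (y d - y b)))) := by ring
    have e' := mul_pos (mul_pos (h c a h1) (h c b h2)) (mul_pos (h d a h3) (h d b h4))
    rw [e, hδ, hδ, hδ, hδ] at e'
    simpa using e'
  rcases mul_pos_iff.1 key with ⟨hA, hB⟩ | ⟨hA, hB⟩
  · exact ⟨fun h => absurd h (not_lt.2 hB.le), fun h => absurd h (not_lt.2 hA.le)⟩
  · exact ⟨fun _ => hA, fun _ => hB⟩

/-- The order rotated so that `c` becomes the least point. -/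
noncomputable def rotY (x : V → ℝ) (c : V) (w : V) : ℝ :=
  open Classical in if x w < x c then Real.arctan (x w) + 10 else Real.arctan (x w)

theorem rotY_of_lt {x : V → ℝ} {c w : V} (h : x w < x c) :
    rotY x c w = Real.arctan (x w) + 10 := by
  classical
  unfold rotY
  rw [if_pos h]

theorem rotY_of_ge {x : V → ℝ} {c w : V} (h : ¬ x w < x c) : rotY x c w = Real.arctan (x w) := by
  classical
  unfold rotY
  rw [if_neg h]

theorem arctan_bound (t : ℝ) : -2 < Real.arctan t ∧ Real.arctan t < 2 := by
  have h1 := Real.neg_pi_div_two_lt_arctan t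
  have h2 := Real.arctan_lt_pi_div_two t
  have h3 := Real.pi_lt_four
  constructor <;> linarith

theorem rotY_sign {x : V → ℝ} (hx : Function.Injective x) (c : V) (p q : V) (hpq : p ≠ q) :
    0 < (if x p < x c then (-1 : ℝ) else 1) * (if x q < x c then (-1 : ℝ) else 1) *
      (x p - x q) * (rotY x c p - rotY x c q) := by
  have hne : x p ≠ x q := fun h => hpq (hx h)
  have hmono : 0 < (x p - x q) * (Real.arctan (x p) - Real.arctan (x q)) := by
    rcases lt_or_gt_of_ne hne with h | h
    · exact mul_pos_of_neg_of_neg (by linarith)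
        (by linarith [Real.arctan_strictMono h])
    · exact mul_pos (by linarith) (by linarith [Real.arctan_strictMono h])
  have b1 := arctan_bound (x p)
  have b2 := arctan_bound (x q)
  by_cases h1 : x p < x c <;> by_cases h2 : x q < x c
  · rw [if_pos h1, if_pos h2, rotY_of_lt h1, rotY_of_lt h2]
    have e : (-1 : ℝ) * -1 * (x p - x q) * (Real.arctan (x p) + 10 - (Real.arctan (x q) + 10)) =
        (x p - x q) * (Real.arctan (x p) - Real.arctan (x q)) := by ring
    rw [e]
    exact hmono
  · rw [if_pos h1, if_neg h2, rotY_of_lt h1, rotY_of_ge h2]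
    have h3 : 0 < x q - x p := by linarith [not_lt.1 h2]
    have e : (-1 : ℝ) * 1 * (x p - x q) * (Real.arctan (x p) + 10 - Real.arctan (x q)) =
        (x q - x p) * (Real.arctan (x p) + 10 - Real.arctan (x q)) := by ring
    rw [e]
    exact mul_pos h3 (by linarith)
  · rw [if_neg h1, if_pos h2, rotY_of_ge h1, rotY_of_lt h2]
    have h3 : 0 < x p - x q := by linarith [not_lt.1 h1]
    have e : (1 : ℝ) * -1 * (x p - x q) * (Real.arctan (x p) - (Real.arctan (x q) + 10)) =
        (x p - x q) * (Real.arctan (x q) + 10 - Real.arctan (x p)) := by ring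
    rw [e]
    exact mul_pos h3 (by linarith)
  · rw [if_neg h1, if_neg h2, rotY_of_ge h1, rotY_of_ge h2]
    have e : (1 : ℝ) * 1 * (x p - x q) * (Real.arctan (x p) - Real.arctan (x q)) =
        (x p - x q) * (Real.arctan (x p) - Real.arctan (x q)) := by ring
    rw [e]
    exact hmono

theorem rotY_injective {x : V → ℝ} (hx : Function.Injective x) (c : V) :
    Function.Injective (rotY x c) := by
  intro p q h
  by_contra hpq
  have h1 := rotY_sign hx c p q hpq
  rw [h, sub_self, mul_zero] at h1
  exact lt_irrefl _ h1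

theorem rotY_alt {x : V → ℝ} (hx : Function.Injective x) (c : V) (p q r s : V) :
    Alt (rotY x c) p q r s ↔ Alt x p q r s := by
  refine alt_congr_sign hx (rotY_injective hx c) (fun w => if x w < x c then (-1 : ℝ) else 1)
    (fun w => ?_) (fun p q hpq => rotY_sign hx c p q hpq) p q r s
  split_ifs <;> norm_num

theorem rotY_least {x : V → ℝ} (hx : Function.Injective x) {c w : V} (hw : w ≠ c) :
    rotY x c c < rotY x c w := by
  rw [rotY_of_ge (lt_irrefl (x c))]
  have b1 := arctan_bound (x c)
  have b2 := arctan_bound (x w)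
  by_cases h : x w < x c
  · rw [rotY_of_lt h]
    linarith
  · rw [rotY_of_ge h]
    exact Real.arctan_strictMono (lt_of_le_of_ne (not_lt.1 h) fun h => hw (hx h.symm))

theorem alt_neg {x : V → ℝ} (hx : Function.Injective x) (p q r s : V) :
    Alt (fun w => -x w) p q r s ↔ Alt x p q r s := by
  have hy : Function.Injective fun w => -x w := fun a b h => hx (neg_injective h)
  rw [alt_iff_q hx, alt_iff_q hy]
  unfold Confl.q
  have e : (-x r - -x p) * (-x r - -x q) * ((-x s - -x p) * (-x s - -x q)) =
      (x r - x p) * (x r - x q) * ((x s - x p) * (x s - x q)) := by ring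
  rw [e]

theorem rotY_neg {x : V → ℝ} (hx : Function.Injective x) {a c d : V} (hac : a ≠ c) (hdc : d ≠ c)
    (h : rotY x c d < rotY x c a) :
    rotY (fun w => -x w) c a < rotY (fun w => -x w) c d := by
  have b1 := arctan_bound (x a)
  have b2 := arctan_bound (x d)
  have n1 : x a ≠ x c := fun h => hac (hx h)
  have n2 : x d ≠ x c := fun h => hdc (hx h)
  rcases lt_or_gt_of_ne n1 with h1 | h1 <;> rcases lt_or_gt_of_ne n2 with h2 | h2
  · rw [rotY_of_lt h1, rotY_of_lt h2] at h
    rw [rotY_of_ge (by simpa using h1.le), rotY_of_ge (by simpa using h2.le), Real.arctan_neg,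
      Real.arctan_neg]
    linarith
  · rw [rotY_of_lt h1, rotY_of_ge (not_lt.2 h2.le)] at h
    rw [rotY_of_ge (by simpa using h1.le), rotY_of_lt (by simpa using h2), Real.arctan_neg,
      Real.arctan_neg]
    linarith
  · rw [rotY_of_ge (not_lt.2 h1.le), rotY_of_lt h2] at h
    linarith
  · rw [rotY_of_ge (not_lt.2 h1.le), rotY_of_ge (not_lt.2 h2.le)] at h
    rw [rotY_of_lt (by simpa using h1), rotY_of_lt (by simpa using h2), Real.arctan_neg,
      Real.arctan_neg]
    linarith

/-- G4. Rotation and reflection of the order. -/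
theorem exists_normal {x : V → ℝ} (hx : Function.Injective x) {a c d : V}
    (hac : a ≠ c) (hdc : d ≠ c) (had : a ≠ d) :
    ∃ y : V → ℝ, Function.Injective y ∧ (∀ w, w ≠ c → y c < y w) ∧ y a < y d ∧
      ∀ p q r s, Alt y p q r s ↔ Alt x p q r s := by
  by_cases h : rotY x c a < rotY x c d
  · exact ⟨rotY x c, rotY_injective hx c, fun w hw => rotY_least hx hw, h,
      fun p q r s => rotY_alt hx c p q r s⟩
  · have hy : Function.Injective fun w => -x w := fun a b h => hx (neg_injective h)
    have h' : rotY x c d < rotY x c a :=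
      lt_of_le_of_ne (not_lt.1 h) fun h => had (rotY_injective hx c h.symm)
    exact ⟨rotY (fun w => -x w) c, rotY_injective hy c, fun w hw => rotY_least hy hw,
      rotY_neg hx hac hdc h', fun p q r s => (rotY_alt hy c p q r s).trans (alt_neg hx p q r s)⟩

end Pool.Agent.Confl
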