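import Pool.Agent.Confl.W.Trees
import Pool.Agent.Confl.W.Rot
import Pool.Agent.Confl.W.Geo

/-!
# One step along a smooth path of the chord drawing
-/

set_option autoImplicit false

namespace Pool.Agent.Confl

variable {V : Type}

open Cert

/-- Properties of the relation `H` (thin edges) used in the case analysis. -/
structure ThinRel (G : SimpleGraph V) (x : V → ℝ) (H : V → V → Prop) : Prop where
  sym : ∀ a b, H a b → H b a
  cross : ∀ a b c d, G.Adj a b → H c d → Alt x a b c d → H a b
  k4 : ∀ a b c d, H a b → G.Adj a c → G.Adj a d → G.Adj b c → G.Adj b d → G.Adj c d → False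
  c4 : ∀ h a b c d, a ≠ c → b ≠ d → H h a → G.Adj h a → G.Adj h b → G.Adj h c → G.Adj h d →
    G.Adj a b → G.Adj b c → G.Adj c d → G.Adj d a → False
  w4 : ∀ h a b c d, a ≠ c → b ≠ d → H a b → G.Adj h a → G.Adj h b → G.Adj h c → G.Adj h d →
    G.Adj a b → G.Adj b c → G.Adj c d → G.Adj d a → False

/-- The invariant along a smooth path from `u`, on the chord from `g` to `h`, ahead of `s`. -/
def J (G : SimpleGraph V) (x : V → ℝ) (u g h : V) (s : ℝ) : Prop :=
  (u = h ∨ G.Adj u h) ∧ ∀ a b, G.Adj a b → Alt x g h a b → G.Adj g b → G.Adj a h →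
    0 < (X x g h a b - s) * (x h - x g) →
    ((u = b ∨ G.Adj u b) ∧ ∀ c d, G.Adj c d → Alt x a b c d → G.Adj a d → G.Adj c b →
      0 < (X x a b c d - X x g h a b) * (x b - x a) → (u = d ∨ G.Adj u d))

theorem ordOK_rk0 {y : V → ℝ} {lab : ℕ → V} (h1 : y (lab 0) < y (lab 1))
    (h2 : y (lab 1) < y (lab 2)) (h3 : y (lab 2) < y (lab 3)) : OrdOK y lab rk0 := by
  intro i j hi hj
  have hi' : i < 4 := hi
  have hj' : j < 4 := hj
  have r0 : R rk0 0 = 0 := rfl
  have r1 : R rk0 1 = 1048576 := rfl
  have r2 : R rk0 2 = 2097152 := rfl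
  have r3 : R rk0 3 = 3145728 := rfl
  have h02 := h1.trans h2
  have h13 := h2.trans h3
  have h03 := h1.trans h13
  interval_cases i <;> interval_cases j <;> simp only [r0, r1, r2, r3] <;> constructor <;>
    intro hh <;> first | omega | linarith

/-- Common part of the two applications of the checker. -/
theorem run {G : SimpleGraph V} {x : V → ℝ} (hx : Function.Injective x) {H : V → V → Prop}
    (hH : ThinRel G x H) (hlc : LC G x) {a b c d : V} (hab : G.Adj a b) (hcd : G.Adj c d)
    (tab : H a b) (tcd : H c d)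
    (had : G.Adj a d) (hcb : G.Adj c b) (h1 : Alt x a b c d) (lab : ℕ → V) (l0 : lab 0 = c)
    (l1 : lab 1 = a) (l2 : lab 2 = d) (l3 : lab 3 = b) (rules : List Rule) (t : Tr)
    (hc : chk rules t rk0 none none T0 U0 = true)
    (hr : ∀ y : V → ℝ, (∀ p q r s, Alt y p q r s ↔ Alt x p q r s) →
      ∀ ρ ∈ rules, RuleHolds G H y lab ρ) : False := by
  have hne := alt_ne hx h1
  obtain ⟨y, hy, hmin, hyad, hA⟩ := exists_normal hx hne.1.symm hcd.ne.symm had.ne
  have hAy : Alt y a b c d := (hA _ _ _ _).2 h1
  have hca : y c < y a := hmin a hne.1.symm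
  have hcb' : y c < y b := hmin b hne.2.1.symm
  have hdb : y d < y b := by
    rcases hAy with ⟨h, _⟩ | ⟨h, _⟩
    · rcases h with h | h
      · exact absurd h.1 (lt_asymm hca)
      · exact absurd h.1 (lt_asymm hcb')
    · rcases h with h | h
      · exact h.2
      · exact absurd h.2 (lt_asymm hyad)
  have M : Model G H y lab rules :=
    { inj := hy
      lca := fun p q r s hpq hrs h => lc_alt G x hx hlc hpq hrs ((hA _ _ _ _).1 h)
      sym := hH.sym
      cross := fun p q r s hpq hrs h => hH.cross p q r s hpq hrs ((hA _ _ _ _).1 h)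
      k4 := hH.k4
      c4 := hH.c4
      w4 := hH.w4
      mn := fun w => by
        rw [l0]
        by_cases hw : w = c
        · rw [hw]
        · exact (hmin w hw).le
      ru := hr y hA }
  refine sound M t rk0 none none T0 U0 hc (ordOK_rk0 ?_ ?_ ?_) ?_ ?_ ?_ ?_
  · rw [l0, l1]; exact hca
  · rw [l1, l2]; exact hyad
  · rw [l2, l3]; exact hdb
  · intro p hp
    simp only [T0, List.mem_cons, List.not_mem_nil, or_false] at hp
    rcases hp with rfl | rfl | rfl | rfl
    · exact ⟨by decide, by decide, by rw [l1, l3]; exact hab⟩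
    · exact ⟨by decide, by decide, by rw [l0, l2]; exact hcd⟩
    · exact ⟨by decide, by decide, by rw [l1, l2]; exact had⟩
    · exact ⟨by decide, by decide, by rw [l0, l3]; exact hcb⟩
  · intro p hp
    simp only [U0, List.mem_cons, List.not_mem_nil, or_false] at hp
    rcases hp with rfl | rfl
    · exact ⟨by decide, by decide, by rw [l1, l3]; exact tab⟩
    · exact ⟨by decide, by decide, by rw [l0, l2]; exact tcd⟩
  · intro l hl; cases hl
  · intro l hl; cases hl

/-- Three consecutive chords: the first tail is adjacent to the last head. -/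
theorem tri_adj {G : SimpleGraph V} {x : V → ℝ} (hx : Function.Injective x)
    {H : V → V → Prop} (hH : ThinRel G x H) (hlc : LC G x) {a b c d e f : V} (tab : H a b)
    (hab : G.Adj a b) (hcd : G.Adj c d) (hef : G.Adj e f) (h1 : Alt x a b c d) (had : G.Adj a d) (hcb : G.Adj c b)
    (h2 : Alt x c d e f) (hcf : G.Adj c f) (hed : G.Adj e d)
    (hQR : 0 < (X x c d e f - X x a b c d) * (x d - x c)) : a = f ∨ G.Adj a f := by
  by_contra hcon
  rw [not_or] at hcon
  have tcd : H c d := hH.cross c d a b hcd tab (alt_comm hx h1)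
  have tef : H e f := hH.cross e f c d hef tcd (alt_comm hx h2)
  let lab : ℕ → V := fun n => match n with
    | 0 => c | 1 => a | 2 => d | 3 => b | 4 => e | _ => f
  refine run hx hH hlc hab hcd tab tcd had hcb h1 lab rfl rfl rfl rfl rulesBase treeBase chkBase ?_
  intro y hA ρ hρ
  simp only [rulesBase, List.mem_cons, List.not_mem_nil, or_false] at hρ
  rcases hρ with rfl | rfl | rfl | rfl | rfl | rfl | rfl | rfl | rfl <;> intro ho he
  · exact (ho _ (List.mem_cons_self ..)) ((hA _ _ _ _).2 h2)
  · have o1 : ¬ Alt y a b e f := ho _ (List.mem_cons_self ..)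
    have o2 : Alt y e f c a := ho _ (List.mem_cons_of_mem _ (List.mem_cons_self ..))
    rw [hA] at o1 o2
    exact (tri_apart hx h1 h2 o1 hQR).1 o2
  · have o1 : ¬ Alt y a b e f := ho _ (List.mem_cons_self ..)
    have o2 : Alt y e f c b := ho _ (List.mem_cons_of_mem _ (List.mem_cons_self ..))
    rw [hA] at o1 o2
    exact (tri_apart hx h1 h2 o1 hQR).2 o2
  · have e1 : G.Adj a f := he _ (List.mem_cons_self ..)
    exact hcon.2 e1
  · have o1 : a = f := ho _ (List.mem_cons_self ..)
    exact hcon.1 o1
  · exact hef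
  · exact hcf
  · exact hed
  · exact tef

theorem J_baseH {G : SimpleGraph V} {x : V → ℝ} (hx : Function.Injective x) {H : V → V → Prop}
    (hH : ThinRel G x H) (hlc : LC G x) {u b : V} (tub : H u b) (hub : G.Adj u b) (s : ℝ) :
    J G x u u b s :=
  ⟨Or.inr hub, fun _ _ hab halt hub' hah _ => ⟨Or.inr hub', fun _ _ hcd halt' had hcb hpos =>
    tri_adj hx hH hlc tub hub hab hcd halt hub' hah halt' had hcb hpos⟩⟩

theorem X_swap2_W (x : V → ℝ) (a b c d : V) : X x a b c d = X x a b d c := by
  unfold X
  rw [mul_comm (x c) (x d), add_comm (x c) (x d)]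

theorem alt_swap1_W {x : V → ℝ} {a b c d : V} (hx : Function.Injective x)
    (h : Alt x a b c d) : Alt x b a c d := by
  rw [alt_iff_q hx] at h ⊢
  unfold q at h ⊢
  nlinarith [h]

theorem J_stepH {G : SimpleGraph V} {x : V → ℝ} (hx : Function.Injective x)
    {H : V → V → Prop} (hH : ThinRel G x H) (hlc : LC G x) {u g h a b : V} {s : ℝ}
    (tgh : H g h) (hgh : G.Adj g h)
    (hJ : J G x u g h s) (hab : G.Adj a b) (halt : Alt x g h a b) (hgb : G.Adj g b)
    (hah : G.Adj a h) (hs : 0 < (X x g h a b - s) * (x h - x g)) :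
    J G x u a b (X x g h a b) := by
  have hJab := hJ.2 a b hab halt hgb hah hs
  refine ⟨hJab.1, ?_⟩
  intro c d hcd h1 had hcb hpos
  have hud := hJab.2 c d hcd h1 had hcb hpos
  refine ⟨hud, ?_⟩
  intro e f hef h2 hcf hed hQR
  by_contra hcon
  rw [not_or] at hcon
  have tab : H a b := hH.cross a b g h hab tgh (alt_comm hx halt)
  have tcd : H c d := hH.cross c d a b hcd tab (alt_comm hx h1)
  have tef : H e f := hH.cross e f c d hef tcd (alt_comm hx h2)
  have haf := tri_adj hx hH hlc tab hab hcd hef h1 had hcb h2 hcf hed hQR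
  have hgd := tri_adj hx hH hlc tgh hgh hab hcd halt hgb hah h1 had hcb hpos
  -- the chords ab, ef are different
  have hne1 : ¬ (a = e ∧ b = f) := by
    rintro ⟨rfl, rfl⟩
    rw [X_comm_stepC x c d a b, sub_self, zero_mul] at hQR
    exact lt_irrefl _ hQR
  have hne2 : ¬ (a = f ∧ b = e) := by
    rintro ⟨rfl, rfl⟩
    rw [X_swap2_W, X_comm_stepC x c d a b, sub_self, zero_mul] at hQR
    exact lt_irrefl _ hQR
  let lab : ℕ → V := fun n => match n with
    | 0 => c | 1 => a | 2 => d | 3 => b | 4 => e | 5 => f | 6 => u | 7 => g | _ => h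
  -- the rules common to both cases
  have r6 : Alt x a b e f → ¬ Alt x e f a c → G.Adj a f → G.Adj e b → False := by
    intro o1 o2 e1 e2
    have k1 := tri_cross hx h1 h2 o1 hQR o2
    have k2 : 0 < (X x a b e f - X x g h a b) * (x b - x a) := by
      have e3 : (X x a b e f - X x g h a b) * (x b - x a) =
        (X x a b e f - X x a b c d) * (x b - x a) +
          (X x a b c d - X x g h a b) * (x b - x a) := by ring
      rw [e3]
      exact add_pos k1 hpos
    rcases hJab.2 e f hef o1 e1 e2 k2 with h | h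
    · exact hcon.1 h
    · exact hcon.2 h
  have r7 : Alt x g h e f → ¬ Alt x a b e f → ¬ Alt x e f g a → ¬ Alt x e f g b →
      G.Adj g f → G.Adj h e → False := by
    intro o1 o2 o3 o4 e1 e2
    have k1 := tri_apart' hx (alt_comm hx halt) o1 o2 hne1 hne2 o3 o4
    rw [X_comm_stepC x a b g h] at k1
    have k2 : 0 < (X x g h e f - s) * (x h - x g) := by
      have e3 : (X x g h e f - s) * (x h - x g) =
        (X x g h e f - X x g h a b) * (x h - x g) + (X x g h a b - s) * (x h - x g) := by ring
      rw [e3]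
      exact add_pos k1 hs
    rcases (hJ.2 e f hef o1 e1 e2.symm k2).1 with h | h
    · exact hcon.1 h
    · exact hcon.2 h
  have r45 : ¬ Alt x g h c d → ¬ Alt x c d a g ∧ ¬ Alt x c d a h := fun o1 =>
    tri_apart hx halt h1 o1 hpos
  by_cases hP : 0 < (X x c d e f - X x g h c d) * (x d - x c)
  · refine run hx hH hlc hab hcd tab tcd had hcb h1 lab rfl rfl rfl rfl rulesStep1 treeStep1
      chkStep1 ?_
    intro y hA ρ hρ
    simp only [rulesStep1, List.mem_cons, List.not_mem_nil, or_false] at hρ
    rcases hρ with rfl | rfl | rfl | rfl | rfl | rfl | rfl | rfl | rfl | rfl | rfl | rfl | rfl |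
      rfl | rfl | rfl | rfl | rfl | rfl | rfl | rfl | rfl | rfl | rfl <;> intro ho he
    · exact (ho _ (List.mem_cons_self ..)) ((hA _ _ _ _).2 h2)
    · exact (ho _ (List.mem_cons_self ..)) ((hA _ _ _ _).2 halt)
    · have o1 : ¬ Alt y a b e f := ho _ (List.mem_cons_self ..)
      have o2 : Alt y e f c a := ho _ (List.mem_cons_of_mem _ (List.mem_cons_self ..))
      rw [hA] at o1 o2
      exact (tri_apart hx h1 h2 o1 hQR).1 o2
    · have o1 : ¬ Alt y a b e f := ho _ (List.mem_cons_self ..)
      have o2 : Alt y e f c b := ho _ (List.mem_cons_of_mem _ (List.mem_cons_self ..))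
      rw [hA] at o1 o2
      exact (tri_apart hx h1 h2 o1 hQR).2 o2
    · have o1 : ¬ Alt y g h c d := ho _ (List.mem_cons_self ..)
      have o2 : Alt y c d a g := ho _ (List.mem_cons_of_mem _ (List.mem_cons_self ..))
      rw [hA] at o1 o2
      exact (r45 o1).1 o2
    · have o1 : ¬ Alt y g h c d := ho _ (List.mem_cons_self ..)
      have o2 : Alt y c d a h := ho _ (List.mem_cons_of_mem _ (List.mem_cons_self ..))
      rw [hA] at o1 o2
      exact (r45 o1).2 o2
    · have o1 : Alt y a b e f := ho _ (List.mem_cons_self ..)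
      have o2 : ¬ Alt y e f a c := ho _ (List.mem_cons_of_mem _ (List.mem_cons_self ..))
      have e1 : G.Adj a f := he _ (List.mem_cons_self ..)
      have e2 : G.Adj e b := he _ (List.mem_cons_of_mem _ (List.mem_cons_self ..))
      rw [hA] at o1 o2
      exact r6 o1 o2 e1 e2
    · have o1 : Alt y g h e f := ho _ (List.mem_cons_self ..)
      have o2 : ¬ Alt y a b e f := ho _ (List.mem_cons_of_mem _ (List.mem_cons_self ..))
      have o3 : ¬ Alt y e f g a := ho (.nalt 4 5 7 1) (by simp)
      have o4 : ¬ Alt y e f g b := ho (.nalt 4 5 7 3) (by simp)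
      have e1 : G.Adj g f := he _ (List.mem_cons_self ..)
      have e2 : G.Adj h e := he _ (List.mem_cons_of_mem _ (List.mem_cons_self ..))
      rw [hA] at o1 o2 o3 o4
      exact r7 o1 o2 o3 o4 e1 e2
    · have o1 : Alt y g h c d := ho _ (List.mem_cons_self ..)
      have o2 : ¬ Alt y c d g a := ho _ (List.mem_cons_of_mem _ (List.mem_cons_self ..))
      have e1 : G.Adj g d := he _ (List.mem_cons_self ..)
      have e2 : G.Adj c h := he _ (List.mem_cons_of_mem _ (List.mem_cons_self ..))
      rw [hA] at o1 o2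
      have k1 := tri_cross hx halt h1 o1 hpos o2
      have k2 : 0 < (X x g h c d - s) * (x h - x g) := by
        have e3 : (X x g h c d - s) * (x h - x g) =
          (X x g h c d - X x g h a b) * (x h - x g) + (X x g h a b - s) * (x h - x g) := by ring
        rw [e3]
        exact add_pos k1 hs
      rcases (hJ.2 c d hcd o1 e1 e2 k2).2 e f hef h2 hcf hed hP with h | h
      · exact hcon.1 h
      · exact hcon.2 h
    · have e1 : G.Adj u f := he _ (List.mem_cons_self ..)
      exact hcon.2 e1
    · have o1 : u = f := ho _ (List.mem_cons_self ..)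
      exact hcon.1 o1
    · exact hef
    · exact hcf
    · exact hed
    · exact haf
    · exact hJab.1
    · exact hud
    · exact hJ.1
    · exact hgd
    · exact hgh
    · exact hgb
    · exact hah
    · exact tef
    · exact tgh
  · refine run hx hH hlc hab hcd tab tcd had hcb h1 lab rfl rfl rfl rfl rulesStep2 treeStep2
      chkStep2 ?_
    intro y hA ρ hρ
    simp only [rulesStep2, List.mem_cons, List.not_mem_nil, or_false] at hρ
    rcases hρ with rfl | rfl | rfl | rfl | rfl | rfl | rfl | rfl | rfl | rfl | rfl | rfl | rfl |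
      rfl | rfl | rfl | rfl | rfl | rfl | rfl | rfl | rfl | rfl | rfl <;> intro ho he
    · exact (ho _ (List.mem_cons_self ..)) ((hA _ _ _ _).2 h2)
    · exact (ho _ (List.mem_cons_self ..)) ((hA _ _ _ _).2 halt)
    · have o1 : ¬ Alt y a b e f := ho _ (List.mem_cons_self ..)
      have o2 : Alt y e f c a := ho _ (List.mem_cons_of_mem _ (List.mem_cons_self ..))
      rw [hA] at o1 o2
      exact (tri_apart hx h1 h2 o1 hQR).1 o2
    · have o1 : ¬ Alt y a b e f := ho _ (List.mem_cons_self ..)
      have o2 : Alt y e f c b := ho _ (List.mem_cons_of_mem _ (List.mem_cons_self ..))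
      rw [hA] at o1 o2
      exact (tri_apart hx h1 h2 o1 hQR).2 o2
    · have o1 : ¬ Alt y g h c d := ho _ (List.mem_cons_self ..)
      have o2 : Alt y c d a g := ho _ (List.mem_cons_of_mem _ (List.mem_cons_self ..))
      rw [hA] at o1 o2
      exact (r45 o1).1 o2
    · have o1 : ¬ Alt y g h c d := ho _ (List.mem_cons_self ..)
      have o2 : Alt y c d a h := ho _ (List.mem_cons_of_mem _ (List.mem_cons_self ..))
      rw [hA] at o1 o2
      exact (r45 o1).2 o2
    · have o1 : Alt y a b e f := ho _ (List.mem_cons_self ..)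
      have o2 : ¬ Alt y e f a c := ho _ (List.mem_cons_of_mem _ (List.mem_cons_self ..))
      have e1 : G.Adj a f := he _ (List.mem_cons_self ..)
      have e2 : G.Adj e b := he _ (List.mem_cons_of_mem _ (List.mem_cons_self ..))
      rw [hA] at o1 o2
      exact r6 o1 o2 e1 e2
    · have o1 : Alt y g h e f := ho _ (List.mem_cons_self ..)
      have o2 : ¬ Alt y a b e f := ho _ (List.mem_cons_of_mem _ (List.mem_cons_self ..))
      have o3 : ¬ Alt y e f g a := ho (.nalt 4 5 7 1) (by simp)
      have o4 : ¬ Alt y e f g b := ho (.nalt 4 5 7 3) (by simp)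
      have e1 : G.Adj g f := he _ (List.mem_cons_self ..)
      have e2 : G.Adj h e := he _ (List.mem_cons_of_mem _ (List.mem_cons_self ..))
      rw [hA] at o1 o2 o3 o4
      exact r7 o1 o2 o3 o4 e1 e2
    · have o1 : Alt y g h c d := ho _ (List.mem_cons_self ..)
      have o2 : ¬ Alt y g h e f := ho _ (List.mem_cons_of_mem _ (List.mem_cons_self ..))
      have o3 : ¬ Alt y a b e f := ho (.nalt 1 3 4 5) (by simp)
      have o4 : ¬ Alt y e f c g := ho (.nalt 4 5 0 7) (by simp)
      have o5 : ¬ Alt y e f c h := ho (.nalt 4 5 0 8) (by simp)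
      rw [hA] at o1 o2 o3 o4 o5
      refine hP (tri_apart' hx o1 h2 o2 ?_ ?_ o4 o5)
      · rintro ⟨rfl, rfl⟩
        exact o3 (alt_comm hx halt)
      · rintro ⟨rfl, rfl⟩
        exact o3 (alt_comm hx (alt_swap1_W hx halt))
    · have e1 : G.Adj u f := he _ (List.mem_cons_self ..)
      exact hcon.2 e1
    · have o1 : u = f := ho _ (List.mem_cons_self ..)
      exact hcon.1 o1
    · exact hef
    · exact hcf
    · exact hed
    · exact haf
    · exact hJab.1
    · exact hud
    · exact hJ.1
    · exact hgd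
    · exact hgh
    · exact hgb
    · exact hah
    · exact tef
    · exact tgh

end Pool.Agent.Confl
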