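import Pool.Agent.Confl.StepC

/-!
# A checker for finite case analyses on a cyclic order

Labels `0, 1, 2, …` stand for vertices. A certificate is a tree: the labels are inserted one after
the other into the order (comparisons with the labels present), then the local condition and the
rules are applied until a contradiction is found.
-/

set_option autoImplicit false

namespace Pool.Agent.Confl

variable {V : Type}

namespace Cert

/-- Literals about the order of the labels. -/
inductive Lit
  | alt (i j k l : ℕ)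
  | nalt (i j k l : ℕ)
  | eq (i j : ℕ)

/-- Conclusions of rules. -/
inductive Con
  | fls
  | adj (i j : ℕ)
  | aeq (i j : ℕ)
  | thn (i j : ℕ)

/-- Rules: literals about the order and adjacencies imply the conclusion. -/
structure Rule where
  /-- conditions about the order -/
  ord : List Lit
  /-- adjacencies -/
  edg : List (ℕ × ℕ)
  /-- conclusion -/
  con : Con

/-- Certificates. -/
inductive Tr
  | mn
  | cmp (j : ℕ) (t1 t2 t3 : Tr)
  | gap (t : Tr)
  | ru (r : ℕ) (t : Tr)
  | rf (r : ℕ)
  | lc (i j k l : ℕ) (t1 t2 : Tr)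
  | eq (i j : ℕ)
  | th (i j k l : ℕ) (t : Tr)
  | k4 (i j k l : ℕ)
  | c4 (h i j k l : ℕ)
  | w4 (h i j k l : ℕ)

/-- The rank of a label. -/
def R (rk : List ℕ) (i : ℕ) : ℕ := rk.getD i 0

/-- Strict betweenness of numbers. -/
def btw (a b c : ℕ) : Bool :=
  (decide (a < c) && decide (c < b)) || (decide (b < c) && decide (c < a))

/-- Alternation of numbers. -/
def alt4 (a b c d : ℕ) : Bool :=
  (btw a b c && !btw a b d && !decide (d = a) && !decide (d = b)) ||
    (btw a b d && !btw a b c && !decide (c = a) && !decide (c = b))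

/-- The label is present. -/
def pr (rk : List ℕ) (i : ℕ) : Bool := decide (i < rk.length)

/-- Check of a literal. -/
def litOK (rk : List ℕ) : Lit → Bool
  | .alt i j k l => pr rk i && pr rk j && pr rk k && pr rk l &&
      alt4 (R rk i) (R rk j) (R rk k) (R rk l)
  | .nalt i j k l => pr rk i && pr rk j && pr rk k && pr rk l &&
      !alt4 (R rk i) (R rk j) (R rk k) (R rk l)
  | .eq i j => pr rk i && pr rk j && decide (R rk i = R rk j)

/-- The adjacency is known. -/
def hasT (rk : List ℕ) (T : List (ℕ × ℕ)) (i j : ℕ) : Bool :=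
  pr rk i && pr rk j && T.any (fun p => (decide (R rk p.1 = R rk i) && decide (R rk p.2 = R rk j)) ||
    (decide (R rk p.1 = R rk j) && decide (R rk p.2 = R rk i)))

/-- Premises of a rule. -/
def premOK (rk : List ℕ) (T : List (ℕ × ℕ)) (ρ : Rule) : Bool :=
  ρ.ord.all (litOK rk) && ρ.edg.all (fun p => hasT rk T p.1 p.2)

/-- The edges of a wheel with hub `h` and rim `i j k l`. -/
def wheel (rk : List ℕ) (T : List (ℕ × ℕ)) (h i j k l : ℕ) : Bool :=
  hasT rk T h i && (hasT rk T h j && (hasT rk T h k && (hasT rk T h l && (hasT rk T i j &&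
    (hasT rk T j k && (hasT rk T k l && (hasT rk T l i &&
    (!decide (R rk i = R rk k) && !decide (R rk j = R rk l)))))))))

/-- The checker; `T` contains known adjacencies and `U` known thin edges. -/
def chk (rules : List Rule) :
    Tr → List ℕ → Option ℕ → Option ℕ → List (ℕ × ℕ) → List (ℕ × ℕ) → Bool
  | .mn, _, _, hi, _, _ => match hi with
    | some h => decide (h = 0)
    | none => false
  | .cmp j t1 t2 t3, rk, lo, hi, T, U => pr rk j && (chk rules t1 rk lo (some j) T U &&
      (chk rules t2 (rk ++ [R rk j]) none none T U && chk rules t3 rk (some j) hi T U))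
  | .gap t, rk, lo, hi, T, U => match lo, hi with
    | none, _ => false
    | some l, some h => decide (R rk l < (R rk l + R rk h) / 2) &&
        (decide ((R rk l + R rk h) / 2 < R rk h) &&
        (rk.all (fun w => decide (w ≤ R rk l) || decide (R rk h ≤ w)) &&
        chk rules t (rk ++ [(R rk l + R rk h) / 2]) none none T U))
    | some l, none => rk.all (fun w => decide (w ≤ R rk l)) &&
        chk rules t (rk ++ [R rk l + 1048576]) none none T U
  | .ru r t, rk, lo, hi, T, U => match rules[r]? with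
    | none => false
    | some ρ => premOK rk T ρ && (match ρ.con with
      | .fls => true
      | .adj i j => pr rk i && (pr rk j && chk rules t rk lo hi ((i, j) :: T) U)
      | .aeq i j => pr rk i && (pr rk j && (if R rk i = R rk j then chk rules t rk lo hi T U
          else chk rules t rk lo hi ((i, j) :: T) U))
      | .thn i j => pr rk i && (pr rk j && chk rules t rk lo hi T ((i, j) :: U)))
  | .rf r, rk, _, _, T, _ => match rules[r]? with
    | none => false
    | some ρ => premOK rk T ρ && (match ρ.con with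
      | .fls => true
      | .adj _ _ => false
      | .aeq _ _ => false
      | .thn _ _ => false)
  | .lc i j k l t1 t2, rk, lo, hi, T, U => litOK rk (.alt i j k l) && (hasT rk T i j &&
      (hasT rk T k l && (chk rules t1 rk lo hi ((i, k) :: (j, l) :: T) U &&
        chk rules t2 rk lo hi ((i, l) :: (j, k) :: T) U)))
  | .eq i j, rk, _, _, T, _ => hasT rk T i j && decide (R rk i = R rk j)
  | .th i j k l t, rk, lo, hi, T, U => litOK rk (.alt i j k l) && (hasT rk T i j &&
      (hasT rk U k l && chk rules t rk lo hi T ((i, j) :: U)))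
  | .k4 i j k l, rk, _, _, T, U => hasT rk U i j && (hasT rk T i k && (hasT rk T i l &&
      (hasT rk T j k && (hasT rk T j l && hasT rk T k l))))
  | .c4 h i j k l, rk, _, _, T, U => hasT rk U h i && wheel rk T h i j k l
  | .w4 h i j k l, rk, _, _, T, U => hasT rk U i j && wheel rk T h i j k l

variable {G : SimpleGraph V} {y : V → ℝ} {lab : ℕ → V}

/-- Meaning of a literal. -/
def LitHolds (y : V → ℝ) (lab : ℕ → V) : Lit → Prop
  | .alt i j k l => Alt y (lab i) (lab j) (lab k) (lab l)
  | .nalt i j k l => ¬ Alt y (lab i) (lab j) (lab k) (lab l)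
  | .eq i j => lab i = lab j

/-- Meaning of a conclusion; `H` is the relation thin. -/
def ConHolds (G : SimpleGraph V) (H : V → V → Prop) (lab : ℕ → V) : Con → Prop
  | .fls => False
  | .adj i j => G.Adj (lab i) (lab j)
  | .aeq i j => lab i = lab j ∨ G.Adj (lab i) (lab j)
  | .thn i j => H (lab i) (lab j)

/-- Meaning of a rule. -/
def RuleHolds (G : SimpleGraph V) (H : V → V → Prop) (y : V → ℝ) (lab : ℕ → V) (ρ : Rule) :
    Prop :=
  (∀ l ∈ ρ.ord, LitHolds y lab l) → (∀ p ∈ ρ.edg, G.Adj (lab p.1) (lab p.2)) →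
    ConHolds G H lab ρ.con

/-- Assumptions. -/
structure Model (G : SimpleGraph V) (H : V → V → Prop) (y : V → ℝ) (lab : ℕ → V)
    (rules : List Rule) : Prop where
  inj : Function.Injective y
  lca : ∀ a b c d, G.Adj a b → G.Adj c d → Alt y a b c d →
    (G.Adj a c ∧ G.Adj b d) ∨ (G.Adj a d ∧ G.Adj b c)
  sym : ∀ a b, H a b → H b a
  cross : ∀ a b c d, G.Adj a b → H c d → Alt y a b c d → H a b
  k4 : ∀ a b c d, H a b → G.Adj a c → G.Adj a d → G.Adj b c → G.Adj b d → G.Adj c d → False
  c4 : ∀ h a b c d, a ≠ c → b ≠ d → H h a → G.Adj h a → G.Adj h b → G.Adj h c → G.Adj h d →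
    G.Adj a b → G.Adj b c → G.Adj c d → G.Adj d a → False
  w4 : ∀ h a b c d, a ≠ c → b ≠ d → H a b → G.Adj h a → G.Adj h b → G.Adj h c → G.Adj h d →
    G.Adj a b → G.Adj b c → G.Adj c d → G.Adj d a → False
  mn : ∀ w, y (lab 0) ≤ y w
  ru : ∀ ρ ∈ rules, RuleHolds G H y lab ρ

/-- The ranks represent the order of the labels. -/
def OrdOK (y : V → ℝ) (lab : ℕ → V) (rk : List ℕ) : Prop :=
  ∀ i j, i < rk.length → j < rk.length → (R rk i < R rk j ↔ y (lab i) < y (lab j))

theorem R_append {rk : List ℕ} {v i : ℕ} (h : i < rk.length) : R (rk ++ [v]) i = R rk i := by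
  unfold R
  rw [List.getD_append _ _ _ _ h]

theorem R_append_length (rk : List ℕ) (v : ℕ) : R (rk ++ [v]) rk.length = v := by
  unfold R
  rw [List.getD_append_right _ _ _ _ le_rfl]
  simp

theorem R_mem {rk : List ℕ} {i : ℕ} (h : i < rk.length) : R rk i ∈ rk := by
  unfold R
  rw [List.getD_eq_getElem _ _ h]
  exact List.getElem_mem h

theorem ordOK_append {rk : List ℕ} {v : ℕ} (h : OrdOK y lab rk)
    (h1 : ∀ i, i < rk.length → (R rk i < v ↔ y (lab i) < y (lab rk.length)) ∧
      (v < R rk i ↔ y (lab rk.length) < y (lab i))) : OrdOK y lab (rk ++ [v]) := by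
  intro i j hi hj
  rw [List.length_append, List.length_singleton] at hi hj
  rcases Nat.lt_succ_iff_lt_or_eq.1 hi with hi | rfl
  · rcases Nat.lt_succ_iff_lt_or_eq.1 hj with hj | rfl
    · rw [R_append hi, R_append hj]
      exact h i j hi hj
    · rw [R_append hi, R_append_length]
      exact (h1 i hi).1
  · rcases Nat.lt_succ_iff_lt_or_eq.1 hj with hj | rfl
    · rw [R_append hj, R_append_length]
      exact (h1 j hj).2
    · simp

theorem R_eq (hy : Function.Injective y) {rk : List ℕ} (h : OrdOK y lab rk) {i j : ℕ}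
    (hi : i < rk.length) (hj : j < rk.length) : R rk i = R rk j ↔ lab i = lab j := by
  constructor
  · intro he
    apply hy
    have h1 := h i j hi hj
    have h2 := h j i hj hi
    rcases lt_trichotomy (y (lab i)) (y (lab j)) with h3 | h3 | h3
    · have := h1.2 h3; omega
    · exact h3
    · have := h2.2 h3; omega
  · intro he
    have h1 := h i j hi hj
    have h2 := h j i hj hi
    rw [he] at h1 h2
    have n1 : ¬ R rk i < R rk j := fun hh => lt_irrefl _ (h1.1 hh)
    have n2 : ¬ R rk j < R rk i := fun hh => lt_irrefl _ (h2.1 hh)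
    omega

theorem btw_iff {rk : List ℕ} (h : OrdOK y lab rk) {i j k : ℕ}
    (hi : i < rk.length) (hj : j < rk.length) (hk : k < rk.length) :
    btw (R rk i) (R rk j) (R rk k) = true ↔ Btw y (lab i) (lab j) (lab k) := by
  unfold btw Btw
  simp only [Bool.or_eq_true, Bool.and_eq_true, decide_eq_true_eq]
  rw [h i k hi hk, h k j hk hj, h j k hj hk, h k i hk hi]

theorem alt4_iff (hy : Function.Injective y) {rk : List ℕ} (h : OrdOK y lab rk) {i j k l : ℕ}
    (hi : i < rk.length) (hj : j < rk.length) (hk : k < rk.length) (hl : l < rk.length) :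
    alt4 (R rk i) (R rk j) (R rk k) (R rk l) = true ↔
      Alt y (lab i) (lab j) (lab k) (lab l) := by
  unfold alt4 Alt
  simp only [Bool.or_eq_true, Bool.and_eq_true, Bool.not_eq_true', decide_eq_false_iff_not]
  rw [← btw_iff h hi hj hk, ← btw_iff h hi hj hl, R_eq hy h hl hi, R_eq hy h hl hj,
    R_eq hy h hk hi, R_eq hy h hk hj]
  simp only [Bool.not_eq_true, and_assoc, ne_eq]

theorem pr_iff {rk : List ℕ} {i : ℕ} : pr rk i = true ↔ i < rk.length := by
  unfold pr
  simp

theorem litOK_sound (hy : Function.Injective y) {rk : List ℕ} (h : OrdOK y lab rk) {l : Lit}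
    (hl : litOK rk l = true) : LitHolds y lab l := by
  cases l with
  | alt i j k l =>
    simp only [litOK, Bool.and_eq_true, pr_iff] at hl
    obtain ⟨⟨⟨⟨h1, h2⟩, h3⟩, h4⟩, h5⟩ := hl
    exact (alt4_iff hy h h1 h2 h3 h4).1 h5
  | nalt i j k l =>
    simp only [litOK, Bool.and_eq_true, pr_iff, Bool.not_eq_true'] at hl
    obtain ⟨⟨⟨⟨h1, h2⟩, h3⟩, h4⟩, h5⟩ := hl
    intro hc
    have := (alt4_iff hy h h1 h2 h3 h4).2 hc
    rw [this] at h5
    exact Bool.noConfusion h5
  | eq i j =>
    simp only [litOK, Bool.and_eq_true, pr_iff, decide_eq_true_eq] at hl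
    obtain ⟨⟨h1, h2⟩, h3⟩ := hl
    exact (R_eq hy h h1 h2).1 h3

/-- The known pairs are correct. -/
def TOK (P : V → V → Prop) (lab : ℕ → V) (rk : List ℕ) (T : List (ℕ × ℕ)) : Prop :=
  ∀ p ∈ T, p.1 < rk.length ∧ p.2 < rk.length ∧ P (lab p.1) (lab p.2)

theorem hasT_sound (hy : Function.Injective y) {P : V → V → Prop} (hP : ∀ a b, P a b → P b a)
    {rk : List ℕ} (h : OrdOK y lab rk)
    {T : List (ℕ × ℕ)} (hT : TOK P lab rk T) {i j : ℕ} (hh : hasT rk T i j = true) :
    i < rk.length ∧ j < rk.length ∧ P (lab i) (lab j) := by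
  simp only [hasT, Bool.and_eq_true, pr_iff, List.any_eq_true, Bool.or_eq_true,
    decide_eq_true_eq] at hh
  obtain ⟨⟨hi, hj⟩, p, hp, h1⟩ := hh
  refine ⟨hi, hj, ?_⟩
  obtain ⟨h2, h3, h4⟩ := hT p hp
  rcases h1 with ⟨e1, e2⟩ | ⟨e1, e2⟩
  · rw [R_eq hy h h2 hi] at e1
    rw [R_eq hy h h3 hj] at e2
    rw [← e1, ← e2]; exact h4
  · rw [R_eq hy h h2 hj] at e1
    rw [R_eq hy h h3 hi] at e2
    rw [← e1, ← e2]; exact hP _ _ h4

theorem adj_sym (G : SimpleGraph V) : ∀ a b, G.Adj a b → G.Adj b a := fun _ _ h => h.symm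

theorem prem_sound (hy : Function.Injective y) {H : V → V → Prop} {rk : List ℕ}
    (h : OrdOK y lab rk) {T : List (ℕ × ℕ)} (hT : TOK G.Adj lab rk T) {ρ : Rule}
    (hρ : RuleHolds G H y lab ρ) (hh : premOK rk T ρ = true) : ConHolds G H lab ρ.con := by
  simp only [premOK, Bool.and_eq_true, List.all_eq_true] at hh
  exact hρ (fun l hl => litOK_sound hy h (hh.1 l hl))
    (fun p hp => (hasT_sound hy (adj_sym G) h hT (hh.2 p hp)).2.2)

theorem TOK_append {P : V → V → Prop} {rk : List ℕ} {v : ℕ} {T : List (ℕ × ℕ)}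
    (hT : TOK P lab rk T) : TOK P lab (rk ++ [v]) T := by
  intro p hp
  obtain ⟨h1, h2, h3⟩ := hT p hp
  rw [List.length_append, List.length_singleton]
  exact ⟨h1.trans (Nat.lt_succ_self _), h2.trans (Nat.lt_succ_self _), h3⟩

theorem TOK_cons {P : V → V → Prop} {rk : List ℕ} {T : List (ℕ × ℕ)} (hT : TOK P lab rk T)
    {i j : ℕ} (hi : i < rk.length) (hj : j < rk.length) (h : P (lab i) (lab j)) :
    TOK P lab rk ((i, j) :: T) := by
  intro p hp
  rcases List.mem_cons.1 hp with rfl | hp
  · exact ⟨hi, hj, h⟩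
  · exact hT p hp

/-- A wheel. -/
theorem wheel_sound (hy : Function.Injective y) {rk : List ℕ} (h : OrdOK y lab rk)
    {T : List (ℕ × ℕ)} (hT : TOK G.Adj lab rk T) {i j k l m : ℕ}
    (hh : wheel rk T m i j k l = true) :
    lab i ≠ lab k ∧ lab j ≠ lab l ∧ G.Adj (lab m) (lab i) ∧ G.Adj (lab m) (lab j) ∧
      G.Adj (lab m) (lab k) ∧ G.Adj (lab m) (lab l) ∧ G.Adj (lab i) (lab j) ∧
      G.Adj (lab j) (lab k) ∧ G.Adj (lab k) (lab l) ∧ G.Adj (lab l) (lab i) := by
  simp only [wheel, Bool.and_eq_true, Bool.not_eq_true', decide_eq_false_iff_not] at hh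
  obtain ⟨h1, h2, h3, h4, h5, h6, h7, h8, h9, h10⟩ := hh
  have s1 := hasT_sound hy (adj_sym G) h hT h1
  have s2 := hasT_sound hy (adj_sym G) h hT h2
  have s3 := hasT_sound hy (adj_sym G) h hT h3
  have s4 := hasT_sound hy (adj_sym G) h hT h4
  exact ⟨fun he => h9 ((R_eq hy h s1.2.1 s3.2.1).2 he),
    fun he => h10 ((R_eq hy h s2.2.1 s4.2.1).2 he), s1.2.2, s2.2.2, s3.2.2, s4.2.2,
    (hasT_sound hy (adj_sym G) h hT h5).2.2, (hasT_sound hy (adj_sym G) h hT h6).2.2,
    (hasT_sound hy (adj_sym G) h hT h7).2.2, (hasT_sound hy (adj_sym G) h hT h8).2.2⟩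

theorem sound {H : V → V → Prop} {rules : List Rule} (M : Model G H y lab rules) :
    ∀ (t : Tr) (rk : List ℕ)
    (lo hi : Option ℕ) (T U : List (ℕ × ℕ)), chk rules t rk lo hi T U = true → OrdOK y lab rk →
    TOK G.Adj lab rk T → TOK H lab rk U →
    (∀ l, lo = some l → l < rk.length ∧ y (lab l) < y (lab rk.length)) →
    (∀ h, hi = some h → h < rk.length ∧ y (lab rk.length) < y (lab h)) → False := by
  have hS := adj_sym G
  intro t
  induction t with
  | mn =>
    intro rk lo hi T U hc hO hT hU hlo hhi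
    rcases hi with _ | h
    · simp [chk] at hc
    · simp only [chk, decide_eq_true_eq] at hc
      subst hc
      exact absurd (hhi 0 rfl).2 (not_lt.2 (M.mn _))
  | cmp j t1 t2 t3 ih1 ih2 ih3 =>
    intro rk lo hi T U hc hO hT hU hlo hhi
    simp only [chk, Bool.and_eq_true, pr_iff] at hc
    obtain ⟨hj, h1, h2, h3⟩ := hc
    rcases lt_trichotomy (y (lab rk.length)) (y (lab j)) with h | h | h
    · refine ih1 rk lo (some j) T U h1 hO hT hU hlo ?_
      intro h' hh'
      injection hh' with e
      subst e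
      exact ⟨hj, h⟩
    · refine ih2 _ none none T U h2 (ordOK_append hO ?_) (TOK_append hT) (TOK_append hU) ?_ ?_
      · intro i hi
        rw [h]
        exact ⟨hO i j hi hj, hO j i hj hi⟩
      · intro l hl; cases hl
      · intro l hl; cases hl
    · refine ih3 rk (some j) hi T U h3 hO hT hU ?_ hhi
      intro l hl
      injection hl with e
      subst e
      exact ⟨hj, h⟩
  | gap t ih =>
    intro rk lo hi T U hc hO hT hU hlo hhi
    rcases lo with _ | l
    · simp [chk] at hc
    · obtain ⟨hl, hl'⟩ := hlo l rfl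
      rcases hi with _ | h
      · simp only [chk, Bool.and_eq_true, List.all_eq_true, decide_eq_true_eq] at hc
        obtain ⟨h1, h2⟩ := hc
        refine ih _ none none T U h2 (ordOK_append hO ?_) (TOK_append hT) (TOK_append hU) ?_ ?_
        · intro i hi
          have h3 := h1 _ (R_mem hi)
          have h4 : y (lab i) < y (lab rk.length) := by
            refine lt_of_le_of_lt ?_ hl'
            by_contra hcon
            have := (hO l i hl hi).2 (not_le.1 hcon)
            omega
          exact ⟨⟨fun _ => h4, fun _ => by omega⟩,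
            ⟨fun h5 => by omega, fun h5 => absurd h5 (lt_asymm h4)⟩⟩
        · intro l hl; cases hl
        · intro l hl; cases hl
      · obtain ⟨hh, hh'⟩ := hhi h rfl
        simp only [chk, Bool.and_eq_true, List.all_eq_true, Bool.or_eq_true,
          decide_eq_true_eq] at hc
        obtain ⟨h0, h1, h2, h3⟩ := hc
        refine ih _ none none T U h3 (ordOK_append hO ?_) (TOK_append hT) (TOK_append hU) ?_ ?_
        · intro i hi
          rcases h2 _ (R_mem hi) with h4 | h4
          · have h5 : y (lab i) < y (lab rk.length) := by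
              refine lt_of_le_of_lt ?_ hl'
              by_contra hcon
              have := (hO l i hl hi).2 (not_le.1 hcon)
              omega
            exact ⟨⟨fun _ => h5, fun _ => by omega⟩,
              ⟨fun h6 => by omega, fun h6 => absurd h6 (lt_asymm h5)⟩⟩
          · have h5 : y (lab rk.length) < y (lab i) := by
              refine lt_of_lt_of_le hh' ?_
              by_contra hcon
              have := (hO i h hi hh).2 (not_le.1 hcon)
              omega
            exact ⟨⟨fun h6 => by omega, fun h6 => absurd h6 (lt_asymm h5)⟩,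
              ⟨fun _ => h5, fun _ => by omega⟩⟩
        · intro l hl; cases hl
        · intro l hl; cases hl
  | ru r t ih =>
    intro rk lo hi T U hc hO hT hU hlo hhi
    simp only [chk] at hc
    rcases hr : rules[r]? with _ | ρ
    · rw [hr] at hc; simp at hc
    · rw [hr] at hc
      have hρ := M.ru ρ (List.mem_of_getElem? hr)
      simp only [Bool.and_eq_true] at hc
      obtain ⟨h1, h2⟩ := hc
      have h3 := prem_sound M.inj hO hT hρ h1
      rcases hcon : ρ.con with _ | ⟨i, j⟩ | ⟨i, j⟩ | ⟨i, j⟩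
      · rw [hcon] at h3; exact h3
      · rw [hcon] at h3 h2
        simp only [Bool.and_eq_true, pr_iff] at h2
        obtain ⟨hi', hj', h4⟩ := h2
        exact ih rk lo hi _ _ h4 hO (TOK_cons hT hi' hj' h3) hU hlo hhi
      · rw [hcon] at h3 h2
        simp only [Bool.and_eq_true, pr_iff] at h2
        obtain ⟨hi', hj', h4⟩ := h2
        by_cases he : R rk i = R rk j
        · rw [if_pos he] at h4
          exact ih rk lo hi _ _ h4 hO hT hU hlo hhi
        · rw [if_neg he] at h4
          rcases h3 with h3 | h3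
          · exact he ((R_eq M.inj hO hi' hj').2 h3)
          · exact ih rk lo hi _ _ h4 hO (TOK_cons hT hi' hj' h3) hU hlo hhi
      · rw [hcon] at h3 h2
        simp only [Bool.and_eq_true, pr_iff] at h2
        obtain ⟨hi', hj', h4⟩ := h2
        exact ih rk lo hi _ _ h4 hO hT (TOK_cons hU hi' hj' h3) hlo hhi
  | rf r =>
    intro rk lo hi T U hc hO hT hU hlo hhi
    simp only [chk] at hc
    rcases hr : rules[r]? with _ | ρ
    · rw [hr] at hc; simp at hc
    · rw [hr] at hc
      have hρ := M.ru ρ (List.mem_of_getElem? hr)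
      simp only [Bool.and_eq_true] at hc
      obtain ⟨h1, h2⟩ := hc
      have h3 := prem_sound M.inj hO hT hρ h1
      rcases hcon : ρ.con with _ | ⟨i, j⟩ | ⟨i, j⟩ | ⟨i, j⟩
      · rw [hcon] at h3; exact h3
      · rw [hcon] at h2; simp at h2
      · rw [hcon] at h2; simp at h2
      · rw [hcon] at h2; simp at h2
  | lc i j k l t1 t2 ih1 ih2 =>
    intro rk lo hi T U hc hO hT hU hlo hhi
    simp only [chk, Bool.and_eq_true] at hc
    obtain ⟨h1, h2, h3, h4, h5⟩ := hc
    have a1 : Alt y (lab i) (lab j) (lab k) (lab l) := litOK_sound M.inj hO h1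
    obtain ⟨hi', hj', a2⟩ := hasT_sound M.inj hS hO hT h2
    obtain ⟨hk', hl', a3⟩ := hasT_sound M.inj hS hO hT h3
    rcases M.lca _ _ _ _ a2 a3 a1 with ⟨b1, b2⟩ | ⟨b1, b2⟩
    · exact ih1 rk lo hi _ _ h4 hO (TOK_cons (TOK_cons hT hj' hl' b2) hi' hk' b1) hU hlo hhi
    · exact ih2 rk lo hi _ _ h5 hO (TOK_cons (TOK_cons hT hj' hk' b2) hi' hl' b1) hU hlo hhi
  | eq i j =>
    intro rk lo hi T U hc hO hT hU hlo hhi
    simp only [chk, Bool.and_eq_true, decide_eq_true_eq] at hc
    obtain ⟨h1, h2⟩ := hc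
    obtain ⟨hi', hj', a2⟩ := hasT_sound M.inj hS hO hT h1
    exact a2.ne ((R_eq M.inj hO hi' hj').1 h2)
  | th i j k l t ih =>
    intro rk lo hi T U hc hO hT hU hlo hhi
    simp only [chk, Bool.and_eq_true] at hc
    obtain ⟨h1, h2, h3, h4⟩ := hc
    have a1 : Alt y (lab i) (lab j) (lab k) (lab l) := litOK_sound M.inj hO h1
    obtain ⟨hi', hj', a2⟩ := hasT_sound M.inj hS hO hT h2
    obtain ⟨hk', hl', a3⟩ := hasT_sound M.inj M.sym hO hU h3
    exact ih rk lo hi _ _ h4 hO hT (TOK_cons hU hi' hj' (M.cross _ _ _ _ a2 a3 a1)) hlo hhi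
  | k4 i j k l =>
    intro rk lo hi T U hc hO hT hU hlo hhi
    simp only [chk, Bool.and_eq_true] at hc
    obtain ⟨h1, h2, h3, h4, h5, h6⟩ := hc
    exact M.k4 _ _ _ _ (hasT_sound M.inj M.sym hO hU h1).2.2 (hasT_sound M.inj hS hO hT h2).2.2
      (hasT_sound M.inj hS hO hT h3).2.2 (hasT_sound M.inj hS hO hT h4).2.2
      (hasT_sound M.inj hS hO hT h5).2.2 (hasT_sound M.inj hS hO hT h6).2.2
  | c4 h i j k l =>
    intro rk lo hi T U hc hO hT hU hlo hhi
    simp only [chk, Bool.and_eq_true] at hc
    obtain ⟨h1, h2⟩ := hc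
    obtain ⟨w1, w2, w3, w4, w5, w6, w7, w8, w9, w10⟩ := wheel_sound M.inj hO hT h2
    exact M.c4 _ _ _ _ _ w1 w2 (hasT_sound M.inj M.sym hO hU h1).2.2 w3 w4 w5 w6 w7 w8 w9 w10
  | w4 h i j k l =>
    intro rk lo hi T U hc hO hT hU hlo hhi
    simp only [chk, Bool.and_eq_true] at hc
    obtain ⟨h1, h2⟩ := hc
    obtain ⟨w1, w2, w3, w4, w5, w6, w7, w8, w9, w10⟩ := wheel_sound M.inj hO hT h2
    exact M.w4 _ _ _ _ _ w1 w2 (hasT_sound M.inj M.sym hO hU h1).2.2 w3 w4 w5 w6 w7 w8 w9 w10

end Cert

end Pool.Agent.Confl
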