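import Pool.Agent.Confl.W.StepT

/-!
# Smooth paths of the chord drawing give edges: graphs without induced wheels over C4
-/

set_option autoImplicit false

open Filter Topology Set

namespace Pool.Agent.Confl

variable {V : Type} {G : SimpleGraph V} {x : V → ℝ}

/-- The end point of the chord behind a dart. -/
private def bwV (d : Arc G x × Bool) : V := if d.2 then d.1.e.1.2 else d.1.e.1.1

/-- The end point of the chord in front of a dart. -/
private def fwV (d : Arc G x × Bool) : V := if d.2 then d.1.e.1.1 else d.1.e.1.2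

/-- The starting node of a dart. -/
private def tl (d : Arc G x × Bool) : V ⊕ Cro G x := if d.2 then d.1.r else d.1.l

/-- The end node of a dart. -/
private def hd (d : Arc G x × Bool) : V ⊕ Cro G x := if d.2 then d.1.l else d.1.r

private theorem bf_adj (d : Arc G x × Bool) : G.Adj (bwV d) (fwV d) := by
  rcases d with ⟨a, _ | _⟩
  · exact a.e.2.2
  · exact a.e.2.2.symm

private theorem X_swap1 (x : V → ℝ) (a b c d : V) : X x a b c d = X x b a c d := by
  unfold X
  rw [mul_comm (x a) (x b), add_comm (x a) (x b)]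

private theorem X_swap2 (x : V → ℝ) (a b c d : V) : X x a b c d = X x a b d c := by
  unfold X
  rw [mul_comm (x c) (x d), add_comm (x c) (x d)]

private theorem cro_alt (hx : Function.Injective x) (c : Cro G x) :
    Alt x c.1.1.1.1 c.1.1.1.2 c.1.2.1.1 c.1.2.1.2 := by
  rw [alt_iff_q hx]
  have h1 := c.2.1
  have h2 := c.2.2.1
  have h3 := c.2.2.2
  unfold q
  refine mul_neg_of_neg_of_pos ?_ ?_
  · exact mul_neg_of_pos_of_neg (by linarith) (by linarith)
  · exact mul_pos (by linarith) (by linarith)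

private theorem cro_mem (hx : Function.Injective x) (c : Cro G x) :
    (x c.1.1.1.1 < cx G x (Sum.inr c) ∧ cx G x (Sum.inr c) < x c.1.1.1.2) ∧
    (x c.1.2.1.1 < cx G x (Sum.inr c) ∧ cx G x (Sum.inr c) < x c.1.2.1.2) := by
  have h := cro_alt hx c
  have h1 := alt_X_mem hx h
  have h2 := alt_X_mem hx (alt_comm hx h)
  rw [X_comm_stepC] at h2
  have e1 := c.1.1.2.1
  have e2 := c.1.2.2.1
  show (x c.1.1.1.1 < X x c.1.1.1.1 c.1.1.1.2 c.1.2.1.1 c.1.2.1.2 ∧
    X x c.1.1.1.1 c.1.1.1.2 c.1.2.1.1 c.1.2.1.2 < x c.1.1.1.2) ∧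
    (x c.1.2.1.1 < X x c.1.1.1.1 c.1.1.1.2 c.1.2.1.1 c.1.2.1.2 ∧
      X x c.1.1.1.1 c.1.1.1.2 c.1.2.1.1 c.1.2.1.2 < x c.1.2.1.2)
  constructor
  · rcases mul_neg_iff.1 h1 with ⟨a1, a2⟩ | ⟨a1, a2⟩
    · linarith
    · exact ⟨by linarith, by linarith⟩
  · rcases mul_neg_iff.1 h2 with ⟨a1, a2⟩ | ⟨a1, a2⟩
    · linarith
    · exact ⟨by linarith, by linarith⟩

private theorem on_le (hx : Function.Injective x) (e : Edge G x) (n : V ⊕ Cro G x)
    (h : On e n) : x e.1.1 ≤ cx G x n ∧ cx G x n ≤ x e.1.2 := by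
  have he := e.2.1
  rcases n with w | c
  · rcases h with rfl | rfl
    · exact ⟨le_refl _, he.le⟩
    · exact ⟨he.le, le_refl _⟩
  · have := cro_mem hx c
    rcases h with rfl | rfl
    · exact ⟨this.1.1.le, this.1.2.le⟩
    · exact ⟨this.2.1.le, this.2.2.le⟩

private theorem tail_eq (hx : Function.Injective x) (d : Arc G x × Bool) {u : V}
    (h : tl d = Sum.inl u) : u = bwV d := by
  rcases d with ⟨a, _ | _⟩
  · have h' : a.l = Sum.inl u := h
    have h1 := a.on_l
    have h2 := (on_le hx a.e a.r a.on_r).2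
    have h3 := a.lt
    rw [h'] at h1 h3
    rcases h1 with h1 | h1
    · exact h1
    · have : cx G x (Sum.inl u) = x a.e.1.2 := by rw [h1]; rfl
      linarith
  · have h' : a.r = Sum.inl u := h
    have h1 := a.on_r
    have h2 := (on_le hx a.e a.l a.on_l).1
    have h3 := a.lt
    rw [h'] at h1 h3
    rcases h1 with h1 | h1
    · have : cx G x (Sum.inl u) = x a.e.1.1 := by rw [h1]; rfl
      linarith
    · exact h1

private theorem head_eq (hx : Function.Injective x) (d : Arc G x × Bool) {u : V}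
    (h : hd d = Sum.inl u) : u = fwV d := by
  have := tail_eq hx (d.1, !d.2) (u := u) (by
    rcases d with ⟨a, _ | _⟩ <;> exact h)
  rw [this]
  rcases d with ⟨a, _ | _⟩ <;> rfl

private theorem ahead (d : Arc G x × Bool) :
    0 < (cx G x (hd d) - cx G x (tl d)) * (x (fwV d) - x (bwV d)) := by
  rcases d with ⟨a, _ | _⟩
  · have h1 := a.lt
    have h2 := a.e.2.1
    exact mul_pos (sub_pos.2 h1) (sub_pos.2 h2)
  · have h1 := a.lt
    have h2 := a.e.2.1
    exact mul_pos_of_neg_of_neg (sub_neg.2 h1) (sub_neg.2 h2)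

private theorem hd_on (d : Arc G x × Bool) : On d.1.e (hd d) := by
  rcases d with ⟨a, _ | _⟩
  · exact a.on_r
  · exact a.on_l

private theorem tl_on (d : Arc G x × Bool) : On d.1.e (tl d) := by
  rcases d with ⟨a, _ | _⟩
  · exact a.on_l
  · exact a.on_r

private theorem head_hd (d : Arc G x × Bool) : (chordSkel G x).head d = hd d := by
  rcases d with ⟨a, _ | _⟩ <;> rfl

open Classical in
private theorem cdir_eq (a : Arc G x) (b : Bool) (c : Cro G x)
    (h : (if b then a.r else a.l) = Sum.inr c) :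
    cdir a b = if KindY c then (decide (a.e = c.1.1) == !b) else !b := by
  unfold cdir
  rw [h]

open Classical in
/-- The cases of a smooth turn. -/
private theorem turn_cases (hx : Function.Injective x) (hlc : LC G x)
    (d d' : Arc G x × Bool) (h : (chordSkel G x).Turn d d') :
    hd d = tl d' ∧ ((bwV d = bwV d' ∧ fwV d = fwV d') ∨
      (Alt x (bwV d) (fwV d) (bwV d') (fwV d') ∧
        cx G x (hd d) = X x (bwV d) (fwV d) (bwV d') (fwV d') ∧ G.Adj (bwV d) (fwV d') ∧
        G.Adj (bwV d') (fwV d))) := by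
  obtain ⟨c, h1', h2', h3'⟩ : ∃ c : Cro G x, (if (!d.2) then d.1.r else d.1.l) = Sum.inr c ∧
    (if d'.2 then d'.1.r else d'.1.l) = Sum.inr c ∧ cdir d.1 (!d.2) ≠ cdir d'.1 d'.2 := h
  have h1'' : hd d = Sum.inr c := by
    rw [← h1']
    rcases d with ⟨a, _ | _⟩ <;> rfl
  have h2'' : tl d' = Sum.inr c := h2'
  refine ⟨h1''.trans h2''.symm, ?_⟩
  rw [cdir_eq d.1 (!d.2) c h1', cdir_eq d'.1 d'.2 c h2'] at h3'
  have o1 : c.1.1 = d.1.e ∨ c.1.2 = d.1.e := by
    have := hd_on d
    rw [h1''] at this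
    exact this
  have o2 : c.1.1 = d'.1.e ∨ c.1.2 = d'.1.e := by
    have := tl_on d'
    rw [h2''] at this
    exact this
  have hcne : c.1.1 ≠ c.1.2 := by
    intro h
    have := c.2.1
    rw [h] at this
    exact lt_irrefl _ this
  have halt := cro_alt hx c
  have halt' := alt_comm hx halt
  have hlcc := hlc _ _ _ _ c.2.1 c.2.2.1 c.2.2.2 c.1.1.2.2 c.1.2.2.2
  have hY : ¬ KindY c → G.Adj c.1.1.1.1 c.1.2.1.2 ∧ G.Adj c.1.2.1.1 c.1.1.1.2 := by
    intro hn
    rcases hlcc with h | h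
    · exact absurd h hn
    · exact h
  rw [h1'']
  have hcx : cx G x (Sum.inr c) = X x c.1.1.1.1 c.1.1.1.2 c.1.2.1.1 c.1.2.1.2 := rfl
  rw [hcx]
  rcases d with ⟨a, s⟩
  rcases d' with ⟨a', s'⟩
  simp only at o1 o2 h3'
  have swap : ∀ {a b c d : V}, Alt x a b c d → Alt x b a c d := by
    intro a b c d h
    rw [alt_iff_q hx] at h ⊢
    unfold q at h ⊢
    nlinarith [h]
  have swap2 : ∀ {a b c d : V}, Alt x a b c d → Alt x a b d c := fun h => Or.symm h
  rcases o1 with o1 | o1 <;> rcases o2 with o2 | o2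
  · left
    rw [← o1, ← o2] at h3'
    have hs : s = s' := by
      by_cases hk : KindY c
      · rw [if_pos hk, if_pos hk] at h3'
        revert h3'
        cases s <;> cases s' <;> simp
      · rw [if_neg hk, if_neg hk] at h3'
        revert h3'
        cases s <;> cases s' <;> simp
    subst hs
    have he : a.e = a'.e := o1.symm.trans o2
    unfold bwV fwV
    simp only [he, and_self]
  · right
    have hne1 : a.e = c.1.1 := o1.symm
    have hne2 : a'.e ≠ c.1.1 := fun h => hcne (h.symm.trans o2.symm)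
    by_cases hk : KindY c
    · rw [if_pos hk, if_pos hk, decide_eq_true hne1, decide_eq_false hne2] at h3'
      have hs : s' = !s := by
        revert h3'
        cases s <;> cases s' <;> simp
      subst hs
      cases s
      · show Alt x a.e.1.1 a.e.1.2 a'.e.1.2 a'.e.1.1 ∧ _ = X x a.e.1.1 a.e.1.2 a'.e.1.2 a'.e.1.1 ∧
          G.Adj a.e.1.1 a'.e.1.1 ∧ G.Adj a'.e.1.2 a.e.1.2
        rw [← o1, ← o2]
        exact ⟨swap2 halt, X_swap2 _ _ _ _ _, hk.1, hk.2.symm⟩
      · show Alt x a.e.1.2 a.e.1.1 a'.e.1.1 a'.e.1.2 ∧ _ = X x a.e.1.2 a.e.1.1 a'.e.1.1 a'.e.1.2 ∧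
          G.Adj a.e.1.2 a'.e.1.2 ∧ G.Adj a'.e.1.1 a.e.1.1
        rw [← o1, ← o2]
        exact ⟨swap halt, X_swap1 _ _ _ _ _, hk.2, hk.1.symm⟩
    · rw [if_neg hk, if_neg hk] at h3'
      have hs : s' = s := by
        revert h3'
        cases s <;> cases s' <;> simp
      subst hs
      cases s'
      · show Alt x a.e.1.1 a.e.1.2 a'.e.1.1 a'.e.1.2 ∧ _ = X x a.e.1.1 a.e.1.2 a'.e.1.1 a'.e.1.2 ∧
          G.Adj a.e.1.1 a'.e.1.2 ∧ G.Adj a'.e.1.1 a.e.1.2
        rw [← o1, ← o2]
        exact ⟨halt, rfl, (hY hk).1, (hY hk).2⟩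
      · show Alt x a.e.1.2 a.e.1.1 a'.e.1.2 a'.e.1.1 ∧ _ = X x a.e.1.2 a.e.1.1 a'.e.1.2 a'.e.1.1 ∧
          G.Adj a.e.1.2 a'.e.1.1 ∧ G.Adj a'.e.1.2 a.e.1.1
        rw [← o1, ← o2]
        exact ⟨swap (swap2 halt), by rw [← X_swap1, ← X_swap2], (hY hk).2.symm, (hY hk).1.symm⟩
  · right
    have hne1 : a'.e = c.1.1 := o2.symm
    have hne2 : a.e ≠ c.1.1 := fun h => hcne (h.symm.trans o1.symm)
    by_cases hk : KindY c
    · rw [if_pos hk, if_pos hk, decide_eq_true hne1, decide_eq_false hne2] at h3'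
      have hs : s' = !s := by
        revert h3'
        cases s <;> cases s' <;> simp
      subst hs
      cases s
      · show Alt x a.e.1.1 a.e.1.2 a'.e.1.2 a'.e.1.1 ∧ _ = X x a.e.1.1 a.e.1.2 a'.e.1.2 a'.e.1.1 ∧
          G.Adj a.e.1.1 a'.e.1.1 ∧ G.Adj a'.e.1.2 a.e.1.2
        rw [← o1, ← o2]
        exact ⟨swap2 halt', by rw [X_comm_stepC, X_swap2], hk.1.symm, hk.2⟩
      · show Alt x a.e.1.2 a.e.1.1 a'.e.1.1 a'.e.1.2 ∧ _ = X x a.e.1.2 a.e.1.1 a'.e.1.1 a'.e.1.2 ∧
          G.Adj a.e.1.2 a'.e.1.2 ∧ G.Adj a'.e.1.1 a.e.1.1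
        rw [← o1, ← o2]
        exact ⟨swap halt', by rw [X_comm_stepC, X_swap1], hk.2.symm, hk.1⟩
    · rw [if_neg hk, if_neg hk] at h3'
      have hs : s' = s := by
        revert h3'
        cases s <;> cases s' <;> simp
      subst hs
      cases s'
      · show Alt x a.e.1.1 a.e.1.2 a'.e.1.1 a'.e.1.2 ∧ _ = X x a.e.1.1 a.e.1.2 a'.e.1.1 a'.e.1.2 ∧
          G.Adj a.e.1.1 a'.e.1.2 ∧ G.Adj a'.e.1.1 a.e.1.2
        rw [← o1, ← o2]
        exact ⟨halt', by rw [X_comm_stepC], (hY hk).2, (hY hk).1⟩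
      · show Alt x a.e.1.2 a.e.1.1 a'.e.1.2 a'.e.1.1 ∧ _ = X x a.e.1.2 a.e.1.1 a'.e.1.2 a'.e.1.1 ∧
          G.Adj a.e.1.2 a'.e.1.1 ∧ G.Adj a'.e.1.2 a.e.1.1
        rw [← o1, ← o2]
        exact ⟨swap (swap2 halt'), by rw [X_comm_stepC, ← X_swap1, ← X_swap2],
          (hY hk).1.symm, (hY hk).2.symm⟩
  · left
    rw [← o1, ← o2] at h3'
    have hs : s = s' := by
      by_cases hk : KindY c
      · rw [if_pos hk, if_pos hk] at h3'
        revert h3'
        cases s <;> cases s' <;> simp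
      · rw [if_neg hk, if_neg hk] at h3'
        revert h3'
        cases s <;> cases s' <;> simp
    subst hs
    have he : a.e = a'.e := o1.symm.trans o2
    unfold bwV fwV
    simp only [he, and_self]

/-- Moving ahead on the same chord. -/
private theorem J_mono {u g h : V} {s s' : ℝ} (hJ : J G x u g h s)
    (hs : 0 < (s' - s) * (x h - x g)) : J G x u g h s' := by
  refine ⟨hJ.1, ?_⟩
  intro a b hab halt hgb hah hpos
  refine hJ.2 a b hab halt hgb hah ?_
  have e1 : (X x g h a b - s) * (x h - x g) =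
      (X x g h a b - s') * (x h - x g) + (s' - s) * (x h - x g) := by ring
  rw [e1]
  exact add_pos hpos hs

/-- The invariant: a path of edges in one clique, or a path of edges in no `K₄`. -/
private def Inv (G : SimpleGraph V) (x : V → ℝ) (u g h : V) (s : ℝ) : Prop :=
  TI G u g h ∨ (¬ Thick G g h ∧ J G x u g h s)

private theorem Inv_mono {u g h : V} {s s' : ℝ} (hI : Inv G x u g h s)
    (hs : 0 < (s' - s) * (x h - x g)) : Inv G x u g h s' := by
  rcases hI with h1 | ⟨h1, h2⟩
  · exact Or.inl h1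
  · exact Or.inr ⟨h1, J_mono h2 hs⟩

private theorem inv_step (hx : Function.Injective x) (hT : Tight G) (hC : IndW4Free G)
    (hlc : LC G x) {u : V} (d d' : Arc G x × Bool) (h : (chordSkel G x).Turn d d')
    (hI : Inv G x u (bwV d) (fwV d) (cx G x (tl d))) :
    Inv G x u (bwV d') (fwV d') (cx G x (tl d')) := by
  obtain ⟨ht, hc⟩ := turn_cases hx hlc d d' h
  have ha := ahead d
  rcases hc with ⟨h1, h2⟩ | ⟨h1, h2, h4, h5⟩
  · rw [← ht, ← h1, ← h2]
    exact Inv_mono hI ha
  · rw [← ht, h2]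
    rcases hI with h6 | ⟨h6, h7⟩
    · exact Or.inl (TI_step hx hT hlc h6 (bf_adj d') h1)
    · exact Or.inr ⟨thin_cross hx hT hlc h6 (bf_adj d) h1,
        J_step hx hT hC hlc (bf_adj d) h6 h7 (bf_adj d') h1 h4 h5 (by rw [← h2]; exact ha)⟩

private theorem inv_chain (hx : Function.Injective x) (hT : Tight G) (hC : IndW4Free G)
    (hlc : LC G x) {u : V} : ∀ (p : List (Arc G x × Bool)) (d0 : Arc G x × Bool),
    (d0 :: p).IsChain (fun d d' : Arc G x × Bool => (chordSkel G x).Turn d d') →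
    Inv G x u (bwV d0) (fwV d0) (cx G x (tl d0)) →
    ∀ d, (d0 :: p).getLast? = some d → Inv G x u (bwV d) (fwV d) (cx G x (tl d)) := by
  intro p
  induction p with
  | nil =>
    intro d0 _ h0 d hd
    simp only [List.getLast?_singleton, Option.some.injEq] at hd
    rwa [← hd]
  | cons d1 p ih =>
    intro d0 hch h0 d hd
    rw [List.isChain_cons_cons] at hch
    refine ih d1 hch.2 (inv_step hx hT hC hlc d0 d1 hch.1 h0) d ?_
    rwa [List.getLast?_cons_cons] at hd

/-- Smooth paths of the chord drawing join equal or adjacent vertices, if every vertex adjacent to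
two vertices of a `K₄` is adjacent to all of it and there is no induced wheel over a 4-cycle. -/
theorem chord_soundW (G : SimpleGraph V) (x : V → ℝ) (hx : Function.Injective x)
    (hT : Tight G) (hC : IndW4Free G) (hlc : LC G x) {u v : V}
    {p : List (chordSkel G x).Dart} (hp : (chordSkel G x).IsSmoothPath u v p) :
    u = v ∨ G.Adj u v := by
  rcases p with _ | ⟨d0, p⟩
  · have := hp.start
    simp at this
  · have hs := hp.start
    simp only [List.head?_cons, Option.map_some, Option.some.injEq] at hs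
    have hs' : tl (G := G) (x := x) d0 = Sum.inl u := hs
    have hu : u = bwV (G := G) (x := x) d0 := tail_eq hx _ hs'
    have h0 : Inv G x u (bwV (G := G) (x := x) d0) (fwV (G := G) (x := x) d0)
        (cx G x (tl (G := G) (x := x) d0)) := by
      have hb := bf_adj (G := G) (x := x) d0
      rw [← hu] at hb ⊢
      by_cases hth : Thick G u (fwV (G := G) (x := x) d0)
      · exact Or.inl ⟨hth, Or.inl rfl, Or.inr hb⟩
      · exact Or.inr ⟨hth, J_base hx hT hC hlc hb hth _⟩
    have hf := hp.finish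
    rw [Option.map_eq_some_iff] at hf
    obtain ⟨dl, hdl, hv⟩ := hf
    have hlast := inv_chain hx hT hC hlc p d0 hp.turns h0 dl hdl
    have hv' : hd (G := G) (x := x) dl = Sum.inl v := (head_hd dl).symm.trans hv
    have : v = fwV (G := G) (x := x) dl := head_eq hx _ hv'
    rw [this]
    rcases hlast with h1 | ⟨_, h1⟩
    · exact h1.2.2
    · exact h1.1

end Pool.Agent.Confl
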