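import Pool.Agent.Confl.Main
import Pool.Agent.Confl.W.SoundW
import Pool.Agent.Confl.W.CompleteW

/-!
# Recognition of outerconfluent graphs without induced wheels over a 4-cycle and with tight `K₄`s
-/

set_option autoImplicit false

open Filter Topology Set Turing Computability

namespace Pool.Agent.Confl

variable {V : Type}

/-- The graph has no induced wheel over a cycle of length 4, and every vertex adjacent to two
vertices of a `K₄` is one of its vertices or adjacent to all of them. -/
def Clear (G : SimpleGraph V) : Prop := Tight G ∧ IndW4Free G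

theorem outerconfluentAt_of_lcW [Finite V] (G : SimpleGraph V) (x : V → ℝ)
    (hx : Function.Injective x) (h3 : Clear G) (h : LC G x) : OuterconfluentAt G x := by
  obtain ⟨y, hxy, hg⟩ := exists_generic x hx
  have hy : Function.Injective y := by
    intro u v huv
    by_contra hne
    rcases lt_or_gt_of_ne (fun h => hne (hx h) : x u ≠ x v) with h | h
    · exact absurd ((hxy u v).1 h) (by rw [huv]; exact lt_irrefl _)
    · exact absurd ((hxy v u).1 h) (by rw [huv]; exact lt_irrefl _)
  have hlc : LC G y := by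
    intro a b c d hab hbc hcd hac hbd
    exact h a b c d ((hxy _ _).2 hab) ((hxy _ _).2 hbc) ((hxy _ _).2 hcd) hac hbd
  obtain ⟨W, hW⟩ := chord_weak G y hy hg
  obtain ⟨D, hD⟩ := upgrade W
  have hDs : D.toSkel = chordSkel G y := hD.trans hW
  have hrep : (chordSkel G y).Represents G := by
    intro u v huv
    exact ⟨fun h => chord_completeW G y hy h, fun ⟨p, hp⟩ =>
      (chord_soundW G y hy h3.1 h3.2 hlc hp).resolve_left huv⟩
  refine ⟨D, represents_eq hDs hrep, fun u v => ?_⟩
  have hp : ∀ w, (D.pt (Sum.inl w)).re = y w := by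
    intro w
    have key : ∀ S : Skel V, S = chordSkel G y → (S.pt (Sum.inl w)).re = y w := by
      rintro S rfl
      simp [chordSkel, cpt]
    exact key D.toSkel hDs
  rw [hp, hp]
  exact hxy u v

theorem mainW :
    (∃ f : GInst → Bool, Nonempty (TM2ComputableInPolyTime enc encodeBool f) ∧
      (∀ I, f I = true ↔ ∃ x : Fin I.1 → ℝ, Function.Injective x ∧ LC I.2 x) ∧
      (∀ I, Outerconfluent I.2 → f I = true) ∧
      (∀ I, Clear I.2 → (f I = true ↔ Outerconfluent I.2))) ∧
    (∀ (V : Type) [Finite V] (G : SimpleGraph V) (x : V → ℝ), Function.Injective x →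
      (OuterconfluentAt G x → LC G x) ∧
      (Clear G → (OuterconfluentAt G x ↔ LC G x)) ∧
      (G.Connected → (LC G x ↔ ArcProp G x))) := by
  obtain ⟨⟨f, hf, h1, h2, -⟩, h5⟩ := main
  have h0 : ∀ (V : Type) (G : SimpleGraph V), Outerconfluent G →
      ∃ x : V → ℝ, Function.Injective x ∧ OuterconfluentAt G x := by
    rintro V G ⟨D, hD⟩
    refine ⟨fun v => (D.pt (Sum.inl v)).re, fun u v huv => ?_, D, hD, fun u v => Iff.rfl⟩
    have : D.pt (Sum.inl u) = D.pt (Sum.inl v) :=
      Complex.ext huv (by rw [D.vertex_im, D.vertex_im])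
    exact Sum.inl_injective (D.pt_inj this)
  refine ⟨⟨f, hf, h1, h2, fun I hI => ⟨fun h => ?_, fun h => h2 I h⟩⟩, fun V _ G x hx => ?_⟩
  · obtain ⟨x, hx, hlc⟩ := (h1 I).1 h
    obtain ⟨D, hD, _⟩ := outerconfluentAt_of_lcW I.2 x hx hI hlc
    exact ⟨D, hD⟩
  · obtain ⟨e1, -, e3⟩ := h5 V G x hx
    exact ⟨e1, fun h3 => ⟨e1, outerconfluentAt_of_lcW G x hx h3⟩, e3⟩

end Pool.Agent.Confl
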