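import Pool.Agent.Confl.StepC

/-!
# Edges in complete subgraphs on four vertices

If every vertex adjacent to two vertices of a `K₄` is adjacent to all of it (`Tight`), then an edge
of a `K₄` is crossed only by edges of the same clique.
-/

set_option autoImplicit false

namespace Pool.Agent.Confl

variable {V : Type}

/-- Four pairwise adjacent vertices. -/
def K4 (G : SimpleGraph V) (a b c d : V) : Prop :=
  G.Adj a b ∧ G.Adj a c ∧ G.Adj a d ∧ G.Adj b c ∧ G.Adj b d ∧ G.Adj c d

/-- Every vertex adjacent to two vertices of a `K₄` is one of its vertices or adjacent to all of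
them. -/
def Tight (G : SimpleGraph V) : Prop :=
  ∀ a b c d v, K4 G a b c d → G.Adj v a → G.Adj v b → v = c ∨ G.Adj v c

/-- The edge `ab` lies in a `K₄`. -/
def Thick (G : SimpleGraph V) (a b : V) : Prop := ∃ p q, K4 G a b p q

theorem K4.swap {G : SimpleGraph V} {a b c d : V} (h : K4 G a b c d) : K4 G b a c d :=
  ⟨h.1.symm, h.2.2.2.1, h.2.2.2.2.1, h.2.1, h.2.2.1, h.2.2.2.2.2⟩

theorem K4.swap2 {G : SimpleGraph V} {a b c d : V} (h : K4 G a b c d) : K4 G a b d c :=
  ⟨h.1, h.2.2.1, h.2.1, h.2.2.2.2.1, h.2.2.2.1, h.2.2.2.2.2.symm⟩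

theorem K4.mid {G : SimpleGraph V} {a b c d : V} (h : K4 G a b c d) : K4 G a c b d :=
  ⟨h.2.1, h.1, h.2.2.1, h.2.2.2.1.symm, h.2.2.2.2.2, h.2.2.2.2.1⟩

theorem K4.flip {G : SimpleGraph V} {a b c d : V} (h : K4 G a b c d) : K4 G c d a b :=
  ⟨h.2.2.2.2.2, h.2.1.symm, h.2.2.2.1.symm, h.2.2.1.symm, h.2.2.2.2.1.symm, h.1⟩

theorem Thick.adj {G : SimpleGraph V} {a b : V} (h : Thick G a b) : G.Adj a b := by
  obtain ⟨p, q, h⟩ := h
  exact h.1

theorem Thick.symm {G : SimpleGraph V} {a b : V} (h : Thick G a b) : Thick G b a := by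
  obtain ⟨p, q, h⟩ := h
  exact ⟨p, q, h.swap⟩

theorem thick_aux {G : SimpleGraph V} {x : V → ℝ} (hx : Function.Injective x) (hT : Tight G)
    (hlc : LC G x) {a b c d : V} (hab : Thick G a b) (hcd : G.Adj c d) (halt : Alt x a b c d)
    (hac : G.Adj a c) (hbd : G.Adj b d) : G.Adj b c ∧ G.Adj a d := by
  obtain ⟨p, r, K⟩ := hab
  have hne := alt_ne hx halt
  by_cases hbc : G.Adj b c
  · refine ⟨hbc, ?_⟩
    have key : ∀ m m', K4 G a b m m' → c ≠ m → G.Adj a d := by
      intro m m' Km hcm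
      have h1 : G.Adj c m := (hT a b m m' c Km hac.symm hbc.symm).resolve_left hcm
      have K2 : K4 G b c a m := ⟨hbc, K.1.symm, Km.2.2.2.1, hac.symm, h1, Km.2.1⟩
      exact ((hT b c a m d K2 hbd.symm hcd.symm).resolve_left hne.2.2.1).symm
    by_cases hcp : c = p
    · refine key r p K.swap2 ?_
      rintro rfl
      exact K.2.2.2.2.2.ne hcp.symm
    · exact key p r K hcp
  by_cases had : G.Adj a d
  · refine ⟨?_, had⟩
    have key : ∀ m m', K4 G a b m m' → d ≠ m → G.Adj b c := by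
      intro m m' Km hdm
      have h1 : G.Adj d m := (hT a b m m' d Km had.symm hbd.symm).resolve_left hdm
      have K2 : K4 G a d b m := ⟨had, K.1, Km.2.1, hbd.symm, h1, Km.2.2.2.1⟩
      exact ((hT a d b m c K2 hac.symm hcd).resolve_left hne.2.1).symm
    by_cases hdp : d = p
    · refine key r p K.swap2 ?_
      rintro rfl
      exact K.2.2.2.2.2.ne hdp.symm
    · exact key p r K hdp
  exfalso
  have hpc : p ≠ c := by
    rintro rfl
    exact hbc K.2.2.2.1
  have hpd : p ≠ d := by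
    rintro rfl
    exact had K.2.1
  have halt2 := alt_comm hx halt
  rw [alt_iff_q hx] at halt2
  have hqp : q x c d (x p) ≠ 0 := by
    unfold q
    exact mul_ne_zero (sub_ne_zero.2 fun h => hpc (hx h)) (sub_ne_zero.2 fun h => hpd (hx h))
  by_cases hpa : q x c d (x p) * q x c d (x a) < 0
  · have h1 := alt_comm hx ((alt_iff_q hx c d p a).2 hpa)
    rcases lc_alt G x hx hlc K.2.1.symm hcd h1 with ⟨-, h2⟩ | ⟨h2, -⟩
    · exact had h2
    · have K2 : K4 G b p a r := ⟨K.2.2.2.1, K.1.symm, K.2.2.2.2.1, K.2.1.symm, K.2.2.2.2.2,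
        K.2.2.1⟩
      exact had ((hT b p a r d K2 hbd.symm h2.symm).resolve_left hne.2.2.1).symm
  · have hqa : q x c d (x a) ≠ 0 := by
      intro h
      rw [h, zero_mul] at halt2
      exact lt_irrefl _ halt2
    have hpa' : 0 < q x c d (x p) * q x c d (x a) :=
      lt_of_le_of_ne (not_lt.1 hpa) (Ne.symm (mul_ne_zero hqp hqa))
    have hpb : q x c d (x p) * q x c d (x b) < 0 := by
      by_contra hcon
      have h3 : 0 ≤ (q x c d (x p) * q x c d (x a)) * (q x c d (x p) * q x c d (x b)) :=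
        mul_nonneg hpa'.le (not_lt.1 hcon)
      have h4 : 0 < q x c d (x p) * q x c d (x p) := mul_self_pos.2 hqp
      have h5 : (q x c d (x p) * q x c d (x a)) * (q x c d (x p) * q x c d (x b)) =
          (q x c d (x p) * q x c d (x p)) * (q x c d (x a) * q x c d (x b)) := by ring
      rw [h5] at h3
      exact absurd (mul_neg_of_pos_of_neg h4 halt2) (not_lt.2 h3)
    have h1 := alt_comm hx ((alt_iff_q hx c d p b).2 hpb)
    rcases lc_alt G x hx hlc K.2.2.2.1.symm hcd h1 with ⟨h2, -⟩ | ⟨-, h2⟩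
    · have K2 : K4 G a p b r := ⟨K.2.1, K.1, K.2.2.1, K.2.2.2.1.symm, K.2.2.2.2.2,
        K.2.2.2.2.1⟩
      exact hbc ((hT a p b r c K2 hac.symm h2.symm).resolve_left hne.2.1).symm
    · exact hbc h2

/-- An edge of a `K₄` is crossed only by edges that form a `K₄` with it. -/
theorem thick_cross {G : SimpleGraph V} {x : V → ℝ} (hx : Function.Injective x) (hT : Tight G)
    (hlc : LC G x) {a b c d : V} (hab : Thick G a b) (hcd : G.Adj c d) (halt : Alt x a b c d) :
    K4 G a b c d := by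
  rcases lc_alt G x hx hlc hab.adj hcd halt with ⟨h1, h2⟩ | ⟨h1, h2⟩
  · obtain ⟨h3, h4⟩ := thick_aux hx hT hlc hab hcd halt h1 h2
    exact ⟨hab.adj, h1, h4, h3, h2, hcd⟩
  · obtain ⟨h3, h4⟩ := thick_aux hx hT hlc hab hcd.symm (Or.symm halt) h1 h2
    exact ⟨hab.adj, h4, h1, h2, h3, hcd⟩

/-- An edge crossing an edge which lies in no `K₄` lies in no `K₄`. -/
theorem thin_cross {G : SimpleGraph V} {x : V → ℝ} (hx : Function.Injective x) (hT : Tight G)
    (hlc : LC G x) {a b c d : V} (hab : ¬ Thick G a b) (hadj : G.Adj a b)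
    (halt : Alt x a b c d) : ¬ Thick G c d := by
  intro h
  exact hab ⟨c, d, (thick_cross hx hT hlc h hadj (alt_comm hx halt)).flip⟩

/-- The invariant along a path of edges of a clique. -/
def TI (G : SimpleGraph V) (u g h : V) : Prop :=
  Thick G g h ∧ (u = g ∨ G.Adj u g) ∧ (u = h ∨ G.Adj u h)

theorem TI_step {G : SimpleGraph V} {x : V → ℝ} (hx : Function.Injective x) (hT : Tight G)
    (hlc : LC G x) {u g h a b : V} (hI : TI G u g h) (hab : G.Adj a b) (halt : Alt x g h a b) :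
    TI G u a b := by
  have K := thick_cross hx hT hlc hI.1 hab halt
  refine ⟨⟨g, h, K.flip⟩, ?_, ?_⟩
  · rcases hI.2.1 with rfl | h1
    · exact Or.inr K.2.1
    · rcases hI.2.2 with rfl | h2
      · exact Or.inr K.2.2.2.1
      · exact hT g h a b u K h1 h2
  · rcases hI.2.1 with rfl | h1
    · exact Or.inr K.2.2.1
    · rcases hI.2.2 with rfl | h2
      · exact Or.inr K.2.2.2.2.1
      · exact hT g h b a u K.swap2 h1 h2

end Pool.Agent.Confl
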