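import Pool.Agent.Confl.W.Step
import Pool.Agent.Confl.W.Thick

/-!
# The step for edges that lie in no `K₄`
-/

set_option autoImplicit false

namespace Pool.Agent.Confl

variable {V : Type}

/-- No vertex is adjacent to all vertices of an induced cycle of length 4. -/
def IndW4Free (G : SimpleGraph V) : Prop :=
  ∀ h a b c d, a ≠ c → b ≠ d → G.Adj h a → G.Adj h b → G.Adj h c → G.Adj h d → G.Adj a b →
    G.Adj b c → G.Adj c d → G.Adj d a → G.Adj a c ∨ G.Adj b d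

theorem thinRel {G : SimpleGraph V} {x : V → ℝ} (hx : Function.Injective x) (hT : Tight G)
    (hC : IndW4Free G) (hlc : LC G x) : ThinRel G x (fun a b => G.Adj a b ∧ ¬ Thick G a b) where
  sym := fun _ _ h => ⟨h.1.symm, fun h' => h.2 h'.symm⟩
  cross := fun a b _ _ hab hcd halt =>
    ⟨hab, fun h => hcd.2 ⟨a, b, (thick_cross hx hT hlc h hcd.1 halt).flip⟩⟩
  k4 := fun _ _ c d h h1 h2 h3 h4 h5 => h.2 ⟨c, d, h.1, h1, h2, h3, h4, h5⟩
  c4 := fun h a b c d hac hbd ht h1 h2 h3 h4 h5 h6 h7 h8 => by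
    rcases hC h a b c d hac hbd h1 h2 h3 h4 h5 h6 h7 h8 with h9 | h9
    · exact ht.2 ⟨b, c, h1, h2, h3, h5, h9, h6⟩
    · exact ht.2 ⟨b, d, h1, h2, h4, h5, h8.symm, h9⟩
  w4 := fun h a b c d hac hbd ht h1 h2 h3 h4 h5 h6 h7 h8 => by
    rcases hC h a b c d hac hbd h1 h2 h3 h4 h5 h6 h7 h8 with h9 | h9
    · exact ht.2 ⟨c, h, h5, h9, h1.symm, h6, h2.symm, h3.symm⟩
    · exact ht.2 ⟨d, h, h5, h8.symm, h1.symm, h9, h2.symm, h4.symm⟩

theorem J_base {G : SimpleGraph V} {x : V → ℝ} (hx : Function.Injective x) (hT : Tight G)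
    (hC : IndW4Free G) (hlc : LC G x) {u b : V} (hub : G.Adj u b) (hth : ¬ Thick G u b) (s : ℝ) :
    J G x u u b s :=
  J_baseH hx (thinRel hx hT hC hlc) hlc ⟨hub, hth⟩ hub s

theorem J_step {G : SimpleGraph V} {x : V → ℝ} (hx : Function.Injective x) (hT : Tight G)
    (hC : IndW4Free G) (hlc : LC G x) {u g h a b : V} {s : ℝ} (hgh : G.Adj g h)
    (hth : ¬ Thick G g h) (hJ : J G x u g h s)
    (hab : G.Adj a b) (halt : Alt x g h a b) (hgb : G.Adj g b) (hah : G.Adj a h)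
    (hs : 0 < (X x g h a b - s) * (x h - x g)) : J G x u a b (X x g h a b) :=
  J_stepH hx (thinRel hx hT hC hlc) hlc ⟨hgh, hth⟩ hgh hJ hab halt hgb hah hs

end Pool.Agent.Confl
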