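import Pool.Agent.Confl.W.Check

/-!
# The certificates

Labels: 0 c, 1 a, 2 d, 3 b, 4 e, 5 f, 6 u, 7 g, 8 h. Each tree starts from the order
`c < a < d < b`, the adjacencies ab, cd, ad, cb and the thin edges ab, cd.
-/

set_option autoImplicit false

namespace Pool.Agent.Confl.Cert

/-- Initial ranks. -/
def rk0 : List ℕ := [0, 1048576, 2097152, 3145728]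

/-- Initial adjacencies. -/
def T0 : List (ℕ × ℕ) := [(1, 3), (0, 2), (1, 2), (0, 3)]

/-- Initial thin edges. -/
def U0 : List (ℕ × ℕ) := [(1, 3), (0, 2)]

/-- Rules. -/
def rulesBase : List Rule :=
    [⟨[.nalt 0 2 4 5], [], .fls⟩,
    ⟨[.nalt 1 3 4 5, .alt 4 5 0 1], [], .fls⟩,
    ⟨[.nalt 1 3 4 5, .alt 4 5 0 3], [], .fls⟩,
    ⟨[], [(1, 5)], .fls⟩,
    ⟨[.eq 1 5], [], .fls⟩,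
    ⟨[], [], .adj 4 5⟩,
    ⟨[], [], .adj 0 5⟩,
    ⟨[], [], .adj 4 2⟩,
    ⟨[], [], .thn 4 5⟩]

/-- Certificate. -/
def treeBase : Tr :=
    (.cmp 2 (.cmp 1 (.cmp 0 .mn (.cmp 2 (.cmp 1 (.cmp 0 .mn (.rf 0) (.gap (.rf 0))) (.rf 0)
    (.gap (.rf 0))) (.rf 0) (.cmp 3 (.gap (.rf 0)) (.rf 0) (.gap (.rf 0)))) (.gap (.ru 7 (.th 4
    2 1 3 (.cmp 1 (.cmp 4 (.cmp 0 .mn (.rf 0) (.gap (.rf 0))) (.rf 0) (.gap (.rf 0))) (.rf 0)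
    (.cmp 3 (.cmp 2 (.gap (.rf 0)) (.rf 0) (.gap (.ru 5 (.ru 6 (.lc 0 5 1 3 (.th 0 1 4 2 (.lc 0
    1 4 5 (.rf 3) (.lc 4 2 1 3 (.k4 0 1 2 3) (.c4 1 0 2 4 3)))) (.rf 3)))))) (.rf 1) (.gap (.rf
    1)))))))) (.cmp 2 (.cmp 1 (.cmp 0 .mn (.rf 0) (.gap (.rf 0))) (.rf 0) (.gap (.rf 0))) (.rf
    0) (.cmp 3 (.gap (.ru 5 (.rf 3))) (.rf 3) (.gap (.rf 2)))) (.gap (.ru 7 (.cmp 4 (.cmp 1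
    (.cmp 0 .mn (.rf 0) (.gap (.rf 0))) (.rf 0) (.gap (.rf 0))) (.rf 0) (.cmp 3 (.cmp 2 (.gap
    (.rf 0)) (.rf 0) (.gap (.ru 5 (.ru 6 (.lc 0 5 1 3 (.lc 1 2 4 5 (.c4 0 2 5 3 1) (.rf 3)) (.rf
    3)))))) (.rf 3) (.gap (.ru 5 (.ru 6 (.ru 8 (.th 1 2 4 5 (.lc 1 2 4 5 (.lc 0 3 4 5 (.k4 0 2 4
    5) (.lc 0 3 2 5 (.w4 4 1 2 5 3) (.k4 1 2 4 3))) (.rf 3)))))))))))) (.ru 7 (.eq 2 2)) (.cmp 3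
    (.gap (.ru 7 (.cmp 2 (.cmp 1 (.cmp 0 .mn (.rf 0) (.gap (.ru 5 (.ru 6 (.lc 5 4 1 3 (.rf 3)
    (.lc 0 2 5 3 (.lc 0 2 1 4 (.k4 0 2 1 3) (.c4 0 2 3 5 4)) (.lc 0 2 1 4 (.c4 0 2 1 3 5) (.k4 0
    2 5 4)))))))) (.rf 4) (.gap (.ru 6 (.th 0 5 1 3 (.lc 0 5 1 2 (.lc 0 5 1 3 (.c4 0 5 3 1 2)
    (.rf 3)) (.rf 3)))))) (.rf 0) (.cmp 3 (.cmp 4 (.gap (.rf 0)) (.rf 0) (.gap (.rf 0))) (.rf 0)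
    (.gap (.rf 0)))))) (.ru 7 (.cmp 2 (.cmp 1 (.cmp 0 .mn (.rf 0) (.gap (.rf 1))) (.rf 4) (.gap
    (.ru 6 (.lc 0 5 1 2 (.k4 0 2 1 3) (.rf 3))))) (.rf 0) (.cmp 3 (.gap (.rf 0)) (.rf 0) (.gap
    (.rf 0))))) (.gap (.cmp 2 (.cmp 1 (.cmp 0 .mn (.rf 0) (.gap (.rf 1))) (.rf 2) (.gap (.ru 6
    (.th 0 5 1 3 (.lc 0 5 1 2 (.lc 0 5 1 3 (.c4 0 5 3 1 2) (.rf 3)) (.rf 3)))))) (.rf 0) (.cmp 4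
    (.cmp 3 (.gap (.rf 0)) (.rf 0) (.gap (.rf 0))) (.rf 0) (.gap (.rf 0)))))))

theorem chkBase : chk rulesBase treeBase rk0 none none T0 U0 = true := by
  decide +kernel

/-- Rules. -/
def rulesStep1 : List Rule :=
    [⟨[.nalt 0 2 4 5], [], .fls⟩,
    ⟨[.nalt 7 8 1 3], [], .fls⟩,
    ⟨[.nalt 1 3 4 5, .alt 4 5 0 1], [], .fls⟩,
    ⟨[.nalt 1 3 4 5, .alt 4 5 0 3], [], .fls⟩,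
    ⟨[.nalt 7 8 0 2, .alt 0 2 1 7], [], .fls⟩,
    ⟨[.nalt 7 8 0 2, .alt 0 2 1 8], [], .fls⟩,
    ⟨[.alt 1 3 4 5, .nalt 4 5 1 0], [(1, 5), (4, 3)], .fls⟩,
    ⟨[.alt 7 8 4 5, .nalt 1 3 4 5, .nalt 4 5 7 1, .nalt 4 5 7 3], [(7, 5), (8, 4)], .fls⟩,
    ⟨[.alt 7 8 0 2, .nalt 0 2 7 1], [(7, 2), (0, 8)], .fls⟩,
    ⟨[], [(6, 5)], .fls⟩,
    ⟨[.eq 6 5], [], .fls⟩,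
    ⟨[], [], .adj 4 5⟩,
    ⟨[], [], .adj 0 5⟩,
    ⟨[], [], .adj 4 2⟩,
    ⟨[], [], .aeq 1 5⟩,
    ⟨[], [], .aeq 6 3⟩,
    ⟨[], [], .aeq 6 2⟩,
    ⟨[], [], .aeq 6 8⟩,
    ⟨[], [], .aeq 7 2⟩,
    ⟨[], [], .adj 7 8⟩,
    ⟨[], [], .adj 7 3⟩,
    ⟨[], [], .adj 1 8⟩,
    ⟨[], [], .thn 4 5⟩,
    ⟨[], [], .thn 7 8⟩]

/-- Certificate. -/
def treeStep1 : Tr :=
    (.cmp 2 (.cmp 1 (.cmp 0 .mn (.cmp 2 (.cmp 1 (.cmp 0 .mn (.rf 0) (.gap (.rf 0))) (.rf 0)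
    (.gap (.rf 0))) (.rf 0) (.cmp 3 (.gap (.rf 0)) (.rf 0) (.gap (.rf 0)))) (.gap (.ru 13 (.th 4
    2 1 3 (.cmp 1 (.cmp 4 (.cmp 0 .mn (.rf 0) (.gap (.rf 0))) (.rf 0) (.gap (.rf 0))) (.rf 0)
    (.cmp 3 (.cmp 2 (.gap (.rf 0)) (.rf 0) (.gap (.ru 11 (.ru 12 (.ru 14 (.th 0 5 1 3 (.cmp 2
    (.cmp 4 (.cmp 0 .mn (.rf 9) (.gap (.ru 15 (.ru 16 (.lc 0 5 6 3 (.lc 6 2 4 5 (.c4 0 2 5 3 6)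
    (.rf 9)) (.rf 9)))))) (.rf 9) (.cmp 1 (.gap (.ru 15 (.ru 16 (.lc 0 5 6 3 (.th 0 6 4 2 (.lc 0
    6 4 5 (.rf 9) (.lc 4 2 6 3 (.k4 0 6 2 3) (.c4 6 0 2 4 3)))) (.rf 9))))) (.rf 9) (.gap (.ru
    15 (.ru 16 (.lc 0 5 6 3 (.th 0 6 4 2 (.lc 0 6 1 2 (.k4 0 5 1 3) (.c4 6 0 2 1 3))) (.rf
    9))))))) (.ru 15 (.lc 0 5 2 3 (.w4 3 0 2 1 5) (.rf 9))) (.cmp 3 (.cmp 5 (.gap (.ru 15 (.ru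
    16 (.lc 0 5 6 3 (.lc 0 6 1 5 (.rf 9) (.w4 6 0 2 1 3)) (.rf 9))))) (.rf 10) (.gap (.ru 16
    (.lc 0 5 2 6 (.rf 9) (.lc 0 6 1 3 (.k4 0 2 1 5) (.c4 2 0 5 1 6)))))) (.ru 16 (.lc 0 5 2 3
    (.rf 9) (.c4 2 0 5 1 3))) (.gap (.ru 16 (.lc 0 5 2 6 (.rf 9) (.lc 4 5 2 6 (.rf 9) (.c4 2 0 5
    4 6))))))))))))) (.rf 2) (.gap (.rf 2)))))))) (.cmp 2 (.cmp 1 (.cmp 0 .mn (.rf 0) (.gap (.rf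
    0))) (.rf 0) (.gap (.rf 0))) (.rf 0) (.cmp 3 (.gap (.ru 11 (.ru 12 (.th 0 5 1 3 (.cmp 2
    (.cmp 1 (.cmp 0 .mn (.rf 9) (.gap (.ru 15 (.ru 16 (.lc 0 5 6 3 (.lc 6 2 1 5 (.c4 0 2 5 3 6)
    (.rf 9)) (.rf 9)))))) (.rf 9) (.gap (.ru 15 (.ru 16 (.th 6 3 0 2 (.th 1 2 6 3 (.lc 0 5 6 3
    (.th 0 6 1 2 (.lc 0 6 1 2 (.k4 0 5 1 3) (.c4 6 0 2 1 3))) (.rf 9)))))))) (.ru 15 (.lc 0 5 2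
    3 (.w4 3 0 2 1 5) (.rf 9))) (.cmp 3 (.cmp 5 (.gap (.ru 15 (.ru 16 (.lc 0 5 6 3 (.lc 0 6 1 5
    (.rf 9) (.w4 6 0 2 1 3)) (.rf 9))))) (.rf 10) (.gap (.ru 16 (.lc 0 5 2 6 (.rf 9) (.lc 0 6 1
    3 (.k4 0 2 1 5) (.c4 2 0 5 1 6)))))) (.ru 16 (.lc 0 5 2 3 (.rf 9) (.c4 2 0 5 1 3))) (.gap
    (.ru 16 (.lc 0 5 2 6 (.rf 9) (.lc 1 5 2 6 (.rf 9) (.c4 2 0 5 1 6))))))))))) (.cmp 2 (.cmp 1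
    (.cmp 0 .mn (.rf 9) (.gap (.ru 15 (.rf 9)))) (.rf 9) (.gap (.ru 15 (.rf 9)))) (.ru 15 (.rf
    9)) (.cmp 3 (.gap (.ru 15 (.rf 9))) (.rf 10) (.gap (.ru 15 (.rf 9))))) (.gap (.rf 3))))
    (.gap (.ru 13 (.cmp 4 (.cmp 1 (.cmp 0 .mn (.rf 0) (.gap (.rf 0))) (.rf 0) (.gap (.rf 0)))
    (.rf 0) (.cmp 3 (.cmp 2 (.gap (.rf 0)) (.rf 0) (.gap (.ru 11 (.ru 12 (.ru 14 (.ru 22 (.th 0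
    5 1 3 (.th 1 2 4 5 (.cmp 2 (.cmp 1 (.cmp 0 .mn (.rf 9) (.gap (.ru 15 (.ru 16 (.lc 0 5 6 3
    (.lc 6 2 1 5 (.c4 0 2 5 3 6) (.rf 9)) (.rf 9)))))) (.rf 9) (.cmp 4 (.gap (.ru 15 (.ru 16
    (.lc 0 5 6 3 (.th 0 6 1 2 (.lc 0 6 1 2 (.k4 0 5 1 3) (.c4 6 0 2 1 3))) (.rf 9))))) (.rf 9)
    (.gap (.ru 15 (.ru 16 (.lc 0 5 6 3 (.th 0 6 1 2 (.lc 0 6 1 2 (.k4 0 5 1 3) (.c4 6 0 2 1 3)))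
    (.rf 9))))))) (.ru 15 (.lc 0 5 2 3 (.w4 3 0 2 1 5) (.rf 9))) (.cmp 3 (.cmp 5 (.gap (.ru 15
    (.ru 16 (.lc 0 5 6 3 (.lc 0 6 1 5 (.rf 9) (.w4 6 0 2 1 3)) (.rf 9))))) (.rf 10) (.gap (.ru
    16 (.lc 0 5 2 6 (.rf 9) (.lc 0 6 1 3 (.k4 0 2 1 5) (.c4 2 0 5 1 6)))))) (.ru 16 (.lc 0 5 2 3
    (.rf 9) (.c4 2 0 5 1 3))) (.gap (.ru 16 (.lc 0 5 2 6 (.rf 9) (.lc 1 5 2 6 (.rf 9) (.c4 2 0 5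
    1 6))))))))))))))) (.ru 11 (.cmp 4 (.cmp 1 (.cmp 0 .mn (.rf 9) (.gap (.ru 15 (.rf 9)))) (.rf
    9) (.gap (.ru 15 (.rf 9)))) (.rf 9) (.cmp 3 (.cmp 2 (.gap (.ru 15 (.rf 9))) (.ru 15 (.rf 9))
    (.gap (.ru 15 (.rf 9)))) (.rf 10) (.gap (.ru 15 (.rf 9)))))) (.gap (.ru 11 (.ru 12 (.ru 14
    (.ru 22 (.th 1 5 0 2 (.th 0 3 1 5 (.th 1 2 4 5 (.lc 0 3 4 5 (.th 0 4 1 2 (.lc 0 4 1 2 (.k4 0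
    3 1 5) (.c4 4 0 2 1 5))) (.rf 6))))))))))))))) (.ru 13 (.eq 2 2)) (.cmp 3 (.gap (.ru 13
    (.cmp 2 (.cmp 1 (.cmp 0 .mn (.rf 0) (.gap (.ru 11 (.ru 12 (.ru 14 (.ru 22 (.cmp 2 (.cmp 5
    (.cmp 0 .mn (.rf 9) (.gap (.ru 15 (.ru 16 (.th 6 2 5 4 (.th 0 5 6 2 (.lc 0 5 6 2 (.lc 0 5 6
    3 (.c4 0 5 3 6 2) (.rf 9)) (.rf 9)))))))) (.rf 10) (.cmp 1 (.gap (.ru 15 (.ru 16 (.lc 5 1 6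
    2 (.rf 9) (.lc 5 1 6 3 (.rf 9) (.w4 5 0 2 1 3)))))) (.rf 9) (.gap (.ru 15 (.lc 5 4 6 3 (.rf
    9) (.lc 0 2 5 3 (.w4 3 2 0 5 1) (.w4 5 0 2 1 3))))))) (.ru 15 (.lc 5 4 2 3 (.rf 9) (.w4 3 2
    0 5 1))) (.cmp 3 (.cmp 4 (.gap (.ru 15 (.lc 5 4 6 3 (.rf 9) (.lc 0 2 5 3 (.w4 3 2 0 5 1)
    (.w4 5 0 2 1 3))))) (.rf 9) (.gap (.ru 16 (.lc 5 4 2 6 (.lc 5 2 1 3 (.c4 2 0 5 1 3) (.w4 5 0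
    2 1 3)) (.rf 9))))) (.ru 16 (.lc 5 4 2 3 (.c4 2 0 5 1 3) (.rf 9))) (.gap (.ru 16 (.lc 5 4 2
    6 (.lc 0 3 4 6 (.k4 0 2 5 4) (.c4 2 0 5 4 6)) (.rf 9)))))))))))) (.ru 11 (.ru 12 (.ru 22
    (.cmp 2 (.cmp 1 (.cmp 0 .mn (.rf 9) (.gap (.ru 15 (.ru 16 (.th 6 2 1 4 (.th 0 1 6 2 (.lc 0 1
    6 2 (.c4 0 1 3 6 2) (.rf 9)))))))) (.rf 10) (.gap (.ru 15 (.ru 16 (.lc 1 4 6 3 (.rf 9) (.lc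
    0 2 6 4 (.c4 0 2 6 3 1) (.k4 0 2 1 4))))))) (.rf 9) (.cmp 3 (.cmp 4 (.gap (.ru 15 (.lc 2 4 6
    3 (.w4 1 0 2 4 3) (.k4 0 2 1 3)))) (.rf 9) (.gap (.ru 15 (.ru 16 (.cmp 4 (.cmp 1 (.cmp 0 .mn
    (.cmp 4 (.cmp 1 (.cmp 0 .mn (.rf 1) (.gap (.rf 1))) (.rf 1) (.cmp 2 (.gap (.ru 19 (.lc 0 8 1
    4 (.rf 7) (.k4 0 2 1 4)))) (.rf 7) (.gap (.rf 5)))) (.rf 5) (.cmp 3 (.cmp 6 (.gap (.rf 5))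
    (.rf 5) (.gap (.rf 5))) (.rf 1) (.gap (.rf 1)))) (.gap (.ru 18 (.ru 20 (.th 7 2 1 4 (.th 0 1
    7 2 (.lc 0 1 7 2 (.c4 0 1 3 7 2) (.c4 1 0 2 7 3)))))))) (.cmp 4 (.cmp 1 (.cmp 0 .mn (.rf 1)
    (.gap (.rf 1))) (.rf 1) (.cmp 2 (.gap (.rf 1)) (.rf 1) (.gap (.rf 1)))) (.rf 1) (.cmp 3
    (.cmp 6 (.gap (.rf 1)) (.rf 1) (.gap (.rf 1))) (.rf 1) (.gap (.rf 1)))) (.cmp 2 (.gap (.ru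
    18 (.ru 20 (.lc 1 4 7 3 (.w4 1 0 2 7 3) (.lc 0 2 7 4 (.c4 0 2 7 3 1) (.k4 0 2 1 4)))))) (.ru
    20 (.k4 0 2 1 3)) (.gap (.ru 20 (.lc 2 4 7 3 (.w4 1 0 2 4 3) (.k4 0 2 1 3)))))) (.ru 20 (.w4
    1 0 2 4 3)) (.cmp 3 (.cmp 6 (.gap (.ru 18 (.ru 20 (.lc 1 4 2 7 (.cmp 4 (.cmp 1 (.cmp 0 .mn
    (.rf 4) (.gap (.ru 19 (.ru 23 (.th 0 1 8 7 (.lc 0 1 8 7 (.k4 1 4 2 7) (.c4 0 1 2 7 3)))))))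
    (.rf 1) (.cmp 2 (.gap (.rf 1)) (.rf 1) (.gap (.rf 1)))) (.rf 1) (.cmp 6 (.cmp 7 (.gap (.rf
    1)) (.rf 1) (.gap (.rf 1))) (.rf 1) (.cmp 3 (.gap (.rf 1)) (.rf 1) (.gap (.rf 4))))) (.w4 1
    0 2 7 3))))) (.cmp 4 (.cmp 1 (.cmp 0 .mn (.rf 4) (.gap (.ru 17 (.ru 23 (.th 0 1 8 6 (.lc 0 1
    8 6 (.rf 9) (.c4 0 1 2 6 3))))))) (.rf 1) (.cmp 2 (.gap (.rf 1)) (.rf 1) (.gap (.rf 1))))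
    (.rf 1) (.cmp 3 (.cmp 6 (.gap (.rf 1)) (.rf 1) (.gap (.rf 1))) (.rf 1) (.gap (.rf 4))))
    (.gap (.cmp 4 (.cmp 1 (.cmp 0 .mn (.rf 4) (.gap (.ru 17 (.ru 23 (.th 0 1 8 7 (.lc 0 1 8 6
    (.rf 9) (.c4 0 1 2 6 3))))))) (.rf 1) (.cmp 2 (.gap (.rf 1)) (.rf 1) (.gap (.rf 1)))) (.rf
    1) (.cmp 7 (.cmp 6 (.gap (.rf 1)) (.rf 1) (.gap (.rf 1))) (.rf 1) (.cmp 3 (.gap (.rf 1))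
    (.rf 1) (.gap (.rf 4))))))) (.ru 20 (.eq 3 3)) (.gap (.ru 18 (.ru 20 (.lc 1 4 2 7 (.lc 0 3 4
    7 (.k4 0 2 1 4) (.c4 0 2 7 3 1)) (.w4 1 0 2 7 3))))))))))) (.rf 9) (.gap (.ru 15 (.ru 16
    (.lc 1 4 2 6 (.lc 0 3 4 6 (.k4 0 2 1 4) (.c4 0 2 6 3 1)) (.rf 9)))))))))) (.gap (.ru 11 (.ru
    12 (.ru 14 (.ru 22 (.th 0 5 1 3 (.th 1 2 5 4 (.cmp 2 (.cmp 1 (.cmp 0 .mn (.rf 9) (.gap (.ru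
    15 (.ru 16 (.lc 0 5 6 2 (.lc 0 5 6 3 (.c4 0 5 3 6 2) (.rf 9)) (.rf 9)))))) (.rf 9) (.cmp 5
    (.gap (.ru 15 (.ru 16 (.th 6 2 0 5 (.th 1 5 6 2 (.lc 0 5 6 2 (.th 0 6 1 5 (.lc 0 6 1 5 (.rf
    9) (.c4 6 0 2 1 3))) (.rf 9))))))) (.rf 10) (.gap (.ru 15 (.lc 5 4 6 3 (.rf 9) (.lc 0 2 5 3
    (.w4 3 0 5 1 2) (.c4 5 0 2 1 3))))))) (.ru 15 (.lc 5 4 2 3 (.rf 9) (.w4 3 0 5 1 2))) (.cmp 3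
    (.cmp 4 (.gap (.ru 15 (.lc 5 4 6 3 (.rf 9) (.lc 0 2 5 3 (.w4 3 0 5 1 2) (.c4 5 0 2 1 3)))))
    (.rf 9) (.gap (.ru 15 (.ru 16 (.lc 5 4 2 6 (.cmp 2 (.cmp 1 (.cmp 0 .mn (.cmp 2 (.cmp 1 (.cmp
    0 .mn (.rf 1) (.gap (.rf 1))) (.rf 1) (.cmp 5 (.gap (.ru 17 (.ru 19 (.ru 23 (.lc 0 5 8 6
    (.rf 9) (.c4 0 8 5 2 6)))))) (.ru 17 (.rf 9)) (.gap (.ru 19 (.ru 21 (.lc 0 8 5 2 (.w4 2 0 5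
    1 8) (.c4 5 0 8 1 2))))))) (.rf 7) (.cmp 6 (.cmp 4 (.gap (.rf 5)) (.rf 5) (.gap (.rf 5)))
    (.rf 5) (.cmp 3 (.gap (.rf 5)) (.rf 1) (.gap (.rf 1))))) (.gap (.ru 18 (.ru 20 (.lc 0 5 7 3
    (.c4 0 5 3 7 2) (.th 7 5 1 2 (.cmp 2 (.cmp 1 (.cmp 7 (.cmp 0 .mn (.rf 1) (.gap (.rf 1)))
    (.rf 1) (.gap (.rf 1))) (.rf 1) (.cmp 5 (.gap (.ru 17 (.ru 19 (.ru 21 (.ru 23 (.lc 0 5 8 6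
    (.rf 9) (.w4 5 7 8 1 2))))))) (.ru 17 (.rf 9)) (.gap (.ru 19 (.lc 0 5 7 8 (.k4 0 5 7 2) (.lc
    0 8 5 2 (.w4 2 0 5 7 8) (.c4 5 0 8 7 2))))))) (.rf 7) (.cmp 6 (.cmp 4 (.gap (.ru 19 (.lc 0 5
    7 8 (.k4 0 5 7 2) (.rf 8)))) (.ru 19 (.k4 7 5 2 4)) (.gap (.ru 19 (.lc 0 5 7 8 (.k4 0 5 7 2)
    (.rf 8))))) (.ru 19 (.ru 21 (.w4 2 7 5 1 6))) (.cmp 3 (.gap (.ru 19 (.lc 0 5 7 8 (.k4 0 5 7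
    2) (.rf 8)))) (.rf 1) (.gap (.rf 1))))))))))) (.cmp 2 (.cmp 1 (.cmp 0 .mn (.rf 1) (.gap (.rf
    1))) (.rf 1) (.cmp 5 (.gap (.rf 1)) (.rf 1) (.gap (.rf 1)))) (.rf 1) (.cmp 6 (.cmp 4 (.gap
    (.rf 1)) (.rf 1) (.gap (.rf 1))) (.rf 1) (.cmp 3 (.gap (.rf 1)) (.rf 1) (.gap (.rf 1)))))
    (.cmp 5 (.gap (.ru 18 (.ru 20 (.lc 0 5 7 3 (.c4 0 5 3 7 2) (.cmp 2 (.cmp 7 (.cmp 1 (.cmp 0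
    .mn (.ru 21 (.k4 0 5 1 2)) (.gap (.ru 17 (.ru 19 (.ru 21 (.ru 23 (.lc 0 5 8 6 (.rf 9) (.w4 5
    7 8 1 2)))))))) (.rf 1) (.gap (.rf 1))) (.rf 1) (.cmp 5 (.gap (.rf 1)) (.rf 1) (.gap (.rf
    1)))) (.rf 1) (.cmp 6 (.cmp 4 (.gap (.rf 1)) (.rf 1) (.gap (.rf 1))) (.rf 1) (.cmp 3 (.gap
    (.rf 1)) (.rf 1) (.gap (.ru 21 (.lc 0 5 1 8 (.k4 0 5 1 2) (.rf 8))))))))))) (.ru 20 (.c4 5 0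
    2 1 3)) (.gap (.ru 20 (.lc 5 2 7 3 (.w4 2 0 5 1 3) (.c4 5 0 2 1 3)))))) (.ru 20 (.w4 2 0 5 1
    3)) (.cmp 6 (.cmp 4 (.gap (.ru 18 (.ru 20 (.lc 5 4 7 3 (.th 5 7 0 2 (.lc 5 7 2 6 (.w4 2 5 7
    6 4) (.rf 9))) (.c4 5 0 2 1 3))))) (.cmp 2 (.cmp 1 (.cmp 0 .mn (.rf 4) (.gap (.ru 17 (.ru 19
    (.lc 0 5 8 4 (.lc 0 5 8 6 (.rf 9) (.c4 0 5 2 6 8)) (.k4 0 5 2 4)))))) (.rf 1) (.cmp 5 (.gap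
    (.rf 1)) (.rf 1) (.gap (.rf 1)))) (.rf 1) (.cmp 6 (.cmp 4 (.gap (.rf 1)) (.rf 1) (.gap (.rf
    1))) (.rf 1) (.cmp 3 (.gap (.rf 1)) (.rf 1) (.gap (.rf 4))))) (.gap (.ru 18 (.ru 20 (.th 2 7
    5 4 (.lc 4 6 7 3 (.cmp 4 (.cmp 5 (.cmp 1 (.cmp 0 .mn (.rf 4) (.gap (.ru 19 (.lc 0 5 8 7 (.k4
    5 4 2 7) (.w4 2 0 5 4 7))))) (.rf 1) (.gap (.rf 1))) (.rf 1) (.cmp 2 (.gap (.rf 1)) (.rf 1)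
    (.gap (.rf 1)))) (.rf 1) (.cmp 6 (.cmp 7 (.gap (.rf 1)) (.rf 1) (.gap (.rf 1))) (.rf 1)
    (.cmp 3 (.gap (.rf 1)) (.rf 1) (.gap (.rf 4))))) (.w4 6 7 2 4 3))))))) (.cmp 2 (.cmp 1 (.cmp
    0 .mn (.rf 4) (.gap (.ru 17 (.lc 0 5 8 6 (.rf 9) (.w4 2 0 5 4 6))))) (.rf 1) (.cmp 5 (.gap
    (.rf 1)) (.rf 1) (.gap (.rf 1)))) (.rf 1) (.cmp 6 (.cmp 4 (.gap (.rf 1)) (.rf 1) (.gap (.rf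
    1))) (.rf 1) (.cmp 3 (.gap (.rf 1)) (.rf 1) (.gap (.rf 4))))) (.cmp 3 (.gap (.cmp 4 (.cmp 5
    (.cmp 1 (.cmp 0 .mn (.rf 4) (.gap (.ru 17 (.lc 0 5 8 6 (.rf 9) (.w4 2 0 5 4 6))))) (.rf 1)
    (.gap (.rf 1))) (.rf 1) (.cmp 2 (.gap (.rf 1)) (.rf 1) (.gap (.rf 1)))) (.rf 1) (.cmp 7
    (.cmp 6 (.gap (.rf 1)) (.rf 1) (.gap (.rf 1))) (.rf 1) (.cmp 3 (.gap (.rf 1)) (.rf 1) (.gap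
    (.rf 4)))))) (.ru 20 (.eq 3 3)) (.gap (.cmp 4 (.cmp 5 (.cmp 1 (.cmp 0 .mn (.rf 1) (.gap (.rf
    1))) (.rf 1) (.gap (.ru 17 (.lc 0 5 8 6 (.rf 9) (.w4 2 0 5 4 6))))) (.ru 17 (.rf 9)) (.cmp 2
    (.gap (.ru 21 (.lc 0 5 1 8 (.k4 0 5 1 2) (.lc 0 8 5 2 (.w4 2 0 5 1 8) (.c4 5 0 8 1 2)))))
    (.rf 4) (.gap (.rf 4)))) (.rf 4) (.cmp 3 (.cmp 6 (.gap (.rf 4)) (.rf 4) (.gap (.rf 4))) (.rf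
    1) (.cmp 7 (.gap (.rf 1)) (.rf 1) (.gap (.rf 1))))))))) (.rf 9)))))) (.ru 16 (.lc 5 4 2 3
    (.w4 2 0 5 1 3) (.rf 9))) (.gap (.ru 16 (.lc 5 4 2 6 (.lc 0 3 4 6 (.k4 0 5 2 4) (.w4 2 0 5 4
    6)) (.rf 9)))))))))))))) (.rf 0) (.cmp 3 (.cmp 4 (.gap (.rf 0)) (.rf 0) (.gap (.rf 0))) (.rf
    0) (.gap (.rf 0)))))) (.ru 13 (.cmp 2 (.cmp 1 (.cmp 0 .mn (.rf 0) (.gap (.rf 2))) (.ru 12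
    (.k4 0 2 1 3)) (.gap (.ru 11 (.ru 12 (.ru 14 (.th 0 5 1 3 (.w4 3 0 5 1 2))))))) (.rf 0)
    (.cmp 3 (.gap (.rf 0)) (.rf 0) (.gap (.rf 0))))) (.gap (.ru 13 (.cmp 2 (.cmp 1 (.cmp 0 .mn
    (.rf 0) (.gap (.rf 2))) (.rf 3) (.gap (.ru 11 (.ru 12 (.ru 14 (.th 0 5 1 3 (.lc 0 3 5 4 (.rf
    6) (.lc 0 2 5 3 (.c4 0 5 3 2 4) (.k4 0 5 2 4))))))))) (.rf 0) (.cmp 4 (.cmp 3 (.gap (.rf 0))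
    (.rf 0) (.gap (.rf 0))) (.rf 0) (.gap (.rf 0))))))))

theorem chkStep1 : chk rulesStep1 treeStep1 rk0 none none T0 U0 = true := by
  decide +kernel

/-- Rules. -/
def rulesStep2 : List Rule :=
    [⟨[.nalt 0 2 4 5], [], .fls⟩,
    ⟨[.nalt 7 8 1 3], [], .fls⟩,
    ⟨[.nalt 1 3 4 5, .alt 4 5 0 1], [], .fls⟩,
    ⟨[.nalt 1 3 4 5, .alt 4 5 0 3], [], .fls⟩,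
    ⟨[.nalt 7 8 0 2, .alt 0 2 1 7], [], .fls⟩,
    ⟨[.nalt 7 8 0 2, .alt 0 2 1 8], [], .fls⟩,
    ⟨[.alt 1 3 4 5, .nalt 4 5 1 0], [(1, 5), (4, 3)], .fls⟩,
    ⟨[.alt 7 8 4 5, .nalt 1 3 4 5, .nalt 4 5 7 1, .nalt 4 5 7 3], [(7, 5), (8, 4)], .fls⟩,
    ⟨[.alt 7 8 0 2, .nalt 7 8 4 5, .nalt 1 3 4 5, .nalt 4 5 0 7, .nalt 4 5 0 8], [], .fls⟩,
    ⟨[], [(6, 5)], .fls⟩,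
    ⟨[.eq 6 5], [], .fls⟩,
    ⟨[], [], .adj 4 5⟩,
    ⟨[], [], .adj 0 5⟩,
    ⟨[], [], .adj 4 2⟩,
    ⟨[], [], .aeq 1 5⟩,
    ⟨[], [], .aeq 6 3⟩,
    ⟨[], [], .aeq 6 2⟩,
    ⟨[], [], .aeq 6 8⟩,
    ⟨[], [], .aeq 7 2⟩,
    ⟨[], [], .adj 7 8⟩,
    ⟨[], [], .adj 7 3⟩,
    ⟨[], [], .adj 1 8⟩,
    ⟨[], [], .thn 4 5⟩,
    ⟨[], [], .thn 7 8⟩]

/-- Certificate. -/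
def treeStep2 : Tr :=
    (.cmp 2 (.cmp 1 (.cmp 0 .mn (.cmp 2 (.cmp 1 (.cmp 0 .mn (.rf 0) (.gap (.rf 0))) (.rf 0)
    (.gap (.rf 0))) (.rf 0) (.cmp 3 (.gap (.rf 0)) (.rf 0) (.gap (.rf 0)))) (.gap (.ru 13 (.th 4
    2 1 3 (.cmp 1 (.cmp 4 (.cmp 0 .mn (.rf 0) (.gap (.rf 0))) (.rf 0) (.gap (.rf 0))) (.rf 0)
    (.cmp 3 (.cmp 2 (.gap (.rf 0)) (.rf 0) (.gap (.ru 11 (.ru 12 (.ru 14 (.th 0 5 1 3 (.cmp 2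
    (.cmp 4 (.cmp 0 .mn (.rf 9) (.gap (.ru 15 (.ru 16 (.lc 0 5 6 3 (.lc 6 2 4 5 (.c4 0 2 5 3 6)
    (.rf 9)) (.rf 9)))))) (.rf 9) (.cmp 1 (.gap (.ru 15 (.ru 16 (.lc 0 5 6 3 (.th 0 6 4 2 (.lc 0
    6 4 5 (.rf 9) (.lc 4 2 6 3 (.k4 0 6 2 3) (.c4 6 0 2 4 3)))) (.rf 9))))) (.rf 9) (.gap (.ru
    15 (.ru 16 (.lc 0 5 6 3 (.th 0 6 4 2 (.lc 0 6 1 2 (.k4 0 5 1 3) (.c4 6 0 2 1 3))) (.rf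
    9))))))) (.ru 15 (.lc 0 5 2 3 (.w4 3 0 2 1 5) (.rf 9))) (.cmp 3 (.cmp 5 (.gap (.ru 15 (.ru
    16 (.lc 0 5 6 3 (.lc 0 6 1 5 (.rf 9) (.w4 6 0 2 1 3)) (.rf 9))))) (.rf 10) (.gap (.ru 16
    (.lc 0 5 2 6 (.rf 9) (.lc 0 6 1 3 (.k4 0 2 1 5) (.c4 2 0 5 1 6)))))) (.ru 16 (.lc 0 5 2 3
    (.rf 9) (.c4 2 0 5 1 3))) (.gap (.ru 16 (.lc 0 5 2 6 (.rf 9) (.lc 4 5 2 6 (.rf 9) (.c4 2 0 5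
    4 6))))))))))))) (.rf 2) (.gap (.rf 2)))))))) (.cmp 2 (.cmp 1 (.cmp 0 .mn (.rf 0) (.gap (.rf
    0))) (.rf 0) (.gap (.rf 0))) (.rf 0) (.cmp 3 (.gap (.ru 11 (.ru 12 (.th 0 5 1 3 (.cmp 2
    (.cmp 1 (.cmp 0 .mn (.rf 9) (.gap (.ru 15 (.ru 16 (.lc 0 5 6 3 (.lc 6 2 1 5 (.c4 0 2 5 3 6)
    (.rf 9)) (.rf 9)))))) (.rf 9) (.gap (.ru 15 (.ru 16 (.th 6 3 0 2 (.th 1 2 6 3 (.lc 0 5 6 3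
    (.th 0 6 1 2 (.lc 0 6 1 2 (.k4 0 5 1 3) (.c4 6 0 2 1 3))) (.rf 9)))))))) (.ru 15 (.lc 0 5 2
    3 (.w4 3 0 2 1 5) (.rf 9))) (.cmp 3 (.cmp 5 (.gap (.ru 15 (.ru 16 (.lc 0 5 6 3 (.lc 0 6 1 5
    (.rf 9) (.w4 6 0 2 1 3)) (.rf 9))))) (.rf 10) (.gap (.ru 16 (.lc 0 5 2 6 (.rf 9) (.lc 0 6 1
    3 (.k4 0 2 1 5) (.c4 2 0 5 1 6)))))) (.ru 16 (.lc 0 5 2 3 (.rf 9) (.c4 2 0 5 1 3))) (.gap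
    (.ru 16 (.lc 0 5 2 6 (.rf 9) (.lc 1 5 2 6 (.rf 9) (.c4 2 0 5 1 6))))))))))) (.cmp 2 (.cmp 1
    (.cmp 0 .mn (.rf 9) (.gap (.ru 15 (.rf 9)))) (.rf 9) (.gap (.ru 15 (.rf 9)))) (.ru 15 (.rf
    9)) (.cmp 3 (.gap (.ru 15 (.rf 9))) (.rf 10) (.gap (.ru 15 (.rf 9))))) (.gap (.rf 3))))
    (.gap (.ru 13 (.cmp 4 (.cmp 1 (.cmp 0 .mn (.rf 0) (.gap (.rf 0))) (.rf 0) (.gap (.rf 0)))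
    (.rf 0) (.cmp 3 (.cmp 2 (.gap (.rf 0)) (.rf 0) (.gap (.ru 11 (.ru 12 (.ru 14 (.ru 22 (.th 0
    5 1 3 (.th 1 2 4 5 (.cmp 2 (.cmp 1 (.cmp 0 .mn (.rf 9) (.gap (.ru 15 (.ru 16 (.lc 0 5 6 3
    (.lc 6 2 1 5 (.c4 0 2 5 3 6) (.rf 9)) (.rf 9)))))) (.rf 9) (.cmp 4 (.gap (.ru 15 (.ru 16
    (.lc 0 5 6 3 (.th 0 6 1 2 (.lc 0 6 1 2 (.k4 0 5 1 3) (.c4 6 0 2 1 3))) (.rf 9))))) (.rf 9)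
    (.gap (.ru 15 (.ru 16 (.lc 0 5 6 3 (.th 0 6 1 2 (.lc 0 6 1 2 (.k4 0 5 1 3) (.c4 6 0 2 1 3)))
    (.rf 9))))))) (.ru 15 (.lc 0 5 2 3 (.w4 3 0 2 1 5) (.rf 9))) (.cmp 3 (.cmp 5 (.gap (.ru 15
    (.ru 16 (.lc 0 5 6 3 (.lc 0 6 1 5 (.rf 9) (.w4 6 0 2 1 3)) (.rf 9))))) (.rf 10) (.gap (.ru
    16 (.lc 0 5 2 6 (.rf 9) (.lc 0 6 1 3 (.k4 0 2 1 5) (.c4 2 0 5 1 6)))))) (.ru 16 (.lc 0 5 2 3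
    (.rf 9) (.c4 2 0 5 1 3))) (.gap (.ru 16 (.lc 0 5 2 6 (.rf 9) (.lc 1 5 2 6 (.rf 9) (.c4 2 0 5
    1 6))))))))))))))) (.ru 11 (.cmp 4 (.cmp 1 (.cmp 0 .mn (.rf 9) (.gap (.ru 15 (.rf 9)))) (.rf
    9) (.gap (.ru 15 (.rf 9)))) (.rf 9) (.cmp 3 (.cmp 2 (.gap (.ru 15 (.rf 9))) (.ru 15 (.rf 9))
    (.gap (.ru 15 (.rf 9)))) (.rf 10) (.gap (.ru 15 (.rf 9)))))) (.gap (.ru 11 (.ru 12 (.ru 14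
    (.ru 22 (.th 1 5 0 2 (.th 0 3 1 5 (.th 1 2 4 5 (.lc 0 3 4 5 (.th 0 4 1 2 (.lc 0 4 1 2 (.k4 0
    3 1 5) (.c4 4 0 2 1 5))) (.rf 6))))))))))))))) (.ru 13 (.eq 2 2)) (.cmp 3 (.gap (.ru 13
    (.cmp 2 (.cmp 1 (.cmp 0 .mn (.rf 0) (.gap (.ru 11 (.ru 12 (.ru 14 (.ru 22 (.cmp 2 (.cmp 5
    (.cmp 0 .mn (.rf 9) (.gap (.ru 15 (.ru 16 (.th 6 2 5 4 (.th 0 5 6 2 (.lc 0 5 6 2 (.lc 0 5 6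
    3 (.c4 0 5 3 6 2) (.rf 9)) (.rf 9)))))))) (.rf 10) (.cmp 1 (.gap (.ru 15 (.ru 16 (.lc 5 1 6
    2 (.rf 9) (.lc 5 1 6 3 (.rf 9) (.w4 5 0 2 1 3)))))) (.rf 9) (.gap (.ru 15 (.lc 5 4 6 3 (.rf
    9) (.lc 0 2 5 3 (.w4 3 2 0 5 1) (.w4 5 0 2 1 3))))))) (.ru 15 (.lc 5 4 2 3 (.rf 9) (.w4 3 2
    0 5 1))) (.cmp 3 (.cmp 4 (.gap (.ru 15 (.lc 5 4 6 3 (.rf 9) (.lc 0 2 5 3 (.w4 3 2 0 5 1)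
    (.w4 5 0 2 1 3))))) (.rf 9) (.gap (.ru 16 (.lc 5 4 2 6 (.lc 5 2 1 3 (.c4 2 0 5 1 3) (.w4 5 0
    2 1 3)) (.rf 9))))) (.ru 16 (.lc 5 4 2 3 (.c4 2 0 5 1 3) (.rf 9))) (.gap (.ru 16 (.lc 5 4 2
    6 (.lc 0 3 4 6 (.k4 0 2 5 4) (.c4 2 0 5 4 6)) (.rf 9)))))))))))) (.ru 11 (.ru 12 (.ru 22
    (.cmp 2 (.cmp 1 (.cmp 0 .mn (.rf 9) (.gap (.ru 15 (.ru 16 (.th 6 2 1 4 (.th 0 1 6 2 (.lc 0 1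
    6 2 (.c4 0 1 3 6 2) (.rf 9)))))))) (.rf 10) (.gap (.ru 15 (.ru 16 (.lc 1 4 6 3 (.rf 9) (.lc
    0 2 6 4 (.c4 0 2 6 3 1) (.k4 0 2 1 4))))))) (.rf 9) (.cmp 3 (.cmp 4 (.gap (.ru 15 (.lc 2 4 6
    3 (.w4 1 0 2 4 3) (.k4 0 2 1 3)))) (.rf 9) (.gap (.cmp 4 (.cmp 1 (.cmp 0 .mn (.cmp 4 (.cmp 1
    (.cmp 0 .mn (.rf 1) (.gap (.rf 1))) (.rf 1) (.cmp 2 (.gap (.ru 19 (.lc 0 8 1 4 (.rf 7) (.k4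
    0 2 1 4)))) (.rf 7) (.gap (.rf 5)))) (.rf 5) (.cmp 3 (.cmp 6 (.gap (.rf 5)) (.rf 5) (.gap
    (.rf 5))) (.rf 1) (.gap (.rf 1)))) (.gap (.ru 18 (.ru 20 (.th 7 2 1 4 (.th 0 1 7 2 (.lc 0 1
    7 2 (.c4 0 1 3 7 2) (.c4 1 0 2 7 3)))))))) (.cmp 4 (.cmp 1 (.cmp 0 .mn (.rf 1) (.gap (.rf
    1))) (.rf 1) (.cmp 2 (.gap (.rf 1)) (.rf 1) (.gap (.rf 1)))) (.rf 1) (.cmp 3 (.cmp 6 (.gap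
    (.rf 1)) (.rf 1) (.gap (.rf 1))) (.rf 1) (.gap (.rf 1)))) (.cmp 2 (.gap (.ru 18 (.ru 20 (.lc
    1 4 7 3 (.w4 1 0 2 7 3) (.lc 0 2 7 4 (.c4 0 2 7 3 1) (.k4 0 2 1 4)))))) (.ru 20 (.k4 0 2 1
    3)) (.gap (.ru 20 (.lc 2 4 7 3 (.w4 1 0 2 4 3) (.k4 0 2 1 3)))))) (.ru 20 (.w4 1 0 2 4 3))
    (.cmp 3 (.cmp 6 (.gap (.cmp 4 (.cmp 1 (.cmp 0 .mn (.rf 4) (.gap (.rf 8))) (.rf 1) (.cmp 2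
    (.gap (.rf 1)) (.rf 1) (.gap (.rf 1)))) (.rf 1) (.cmp 6 (.cmp 7 (.gap (.rf 1)) (.rf 1) (.gap
    (.rf 1))) (.rf 1) (.cmp 3 (.gap (.rf 1)) (.rf 1) (.gap (.rf 4)))))) (.cmp 4 (.cmp 1 (.cmp 0
    .mn (.rf 4) (.gap (.rf 8))) (.rf 1) (.cmp 2 (.gap (.rf 1)) (.rf 1) (.gap (.rf 1)))) (.rf 1)
    (.cmp 3 (.cmp 6 (.gap (.rf 1)) (.rf 1) (.gap (.rf 1))) (.rf 1) (.gap (.rf 4)))) (.gap (.cmp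
    4 (.cmp 1 (.cmp 0 .mn (.rf 4) (.gap (.rf 8))) (.rf 1) (.cmp 2 (.gap (.rf 1)) (.rf 1) (.gap
    (.rf 1)))) (.rf 1) (.cmp 7 (.cmp 6 (.gap (.rf 1)) (.rf 1) (.gap (.rf 1))) (.rf 1) (.cmp 3
    (.gap (.rf 1)) (.rf 1) (.gap (.rf 4))))))) (.ru 20 (.eq 3 3)) (.gap (.ru 18 (.ru 20 (.lc 1 4
    2 7 (.lc 0 3 4 7 (.k4 0 2 1 4) (.c4 0 2 7 3 1)) (.w4 1 0 2 7 3))))))))) (.rf 9) (.gap (.ru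
    15 (.ru 16 (.lc 1 4 2 6 (.lc 0 3 4 6 (.k4 0 2 1 4) (.c4 0 2 6 3 1)) (.rf 9)))))))))) (.gap
    (.ru 11 (.ru 12 (.ru 14 (.th 0 5 1 3 (.cmp 2 (.cmp 1 (.cmp 0 .mn (.rf 9) (.gap (.ru 15 (.ru
    16 (.lc 0 5 6 2 (.lc 0 5 6 3 (.c4 0 5 3 6 2) (.rf 9)) (.rf 9)))))) (.rf 9) (.cmp 5 (.gap
    (.ru 15 (.ru 16 (.th 6 2 0 5 (.th 1 5 6 2 (.lc 0 5 6 2 (.th 0 6 1 5 (.lc 0 6 1 5 (.rf 9)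
    (.c4 6 0 2 1 3))) (.rf 9))))))) (.rf 10) (.gap (.ru 15 (.lc 5 4 6 3 (.rf 9) (.lc 0 2 5 3
    (.w4 3 0 5 1 2) (.c4 5 0 2 1 3))))))) (.ru 15 (.lc 5 4 2 3 (.rf 9) (.w4 3 0 5 1 2))) (.cmp 3
    (.cmp 4 (.gap (.ru 15 (.lc 5 4 6 3 (.rf 9) (.lc 0 2 5 3 (.w4 3 0 5 1 2) (.c4 5 0 2 1 3)))))
    (.rf 9) (.gap (.ru 16 (.lc 5 4 2 6 (.cmp 2 (.cmp 1 (.cmp 0 .mn (.cmp 2 (.cmp 1 (.cmp 0 .mn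
    (.rf 1) (.gap (.rf 1))) (.rf 1) (.cmp 5 (.gap (.ru 17 (.ru 19 (.ru 23 (.lc 0 5 8 6 (.rf 9)
    (.c4 0 8 5 2 6)))))) (.ru 17 (.rf 9)) (.gap (.ru 19 (.ru 21 (.lc 0 8 5 2 (.w4 2 0 5 1 8)
    (.c4 5 0 8 1 2))))))) (.rf 7) (.cmp 6 (.cmp 4 (.gap (.rf 5)) (.rf 5) (.gap (.rf 5))) (.rf 5)
    (.cmp 3 (.gap (.rf 5)) (.rf 1) (.gap (.rf 1))))) (.gap (.ru 18 (.ru 20 (.lc 0 5 7 3 (.c4 0 5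
    3 7 2) (.cmp 2 (.cmp 1 (.cmp 7 (.cmp 0 .mn (.rf 1) (.gap (.rf 1))) (.rf 1) (.gap (.rf 1)))
    (.rf 1) (.cmp 5 (.gap (.ru 17 (.ru 19 (.ru 21 (.ru 23 (.lc 0 5 8 6 (.rf 9) (.w4 5 7 8 1
    2))))))) (.ru 17 (.rf 9)) (.gap (.ru 19 (.lc 0 5 7 8 (.k4 0 5 7 2) (.lc 0 8 5 2 (.w4 2 0 5 7
    8) (.c4 5 0 8 7 2))))))) (.rf 7) (.cmp 6 (.cmp 4 (.gap (.ru 19 (.lc 0 5 7 8 (.k4 0 5 7 2)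
    (.lc 0 8 5 4 (.rf 7) (.k4 0 5 2 4))))) (.rf 8) (.gap (.rf 8))) (.rf 8) (.cmp 3 (.gap (.rf
    8)) (.rf 1) (.gap (.rf 1)))))))))) (.cmp 2 (.cmp 1 (.cmp 0 .mn (.rf 1) (.gap (.rf 1))) (.rf
    1) (.cmp 5 (.gap (.rf 1)) (.rf 1) (.gap (.rf 1)))) (.rf 1) (.cmp 6 (.cmp 4 (.gap (.rf 1))
    (.rf 1) (.gap (.rf 1))) (.rf 1) (.cmp 3 (.gap (.rf 1)) (.rf 1) (.gap (.rf 1))))) (.cmp 5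
    (.gap (.ru 18 (.ru 20 (.lc 0 5 7 3 (.c4 0 5 3 7 2) (.cmp 2 (.cmp 7 (.cmp 1 (.cmp 0 .mn (.ru
    21 (.k4 0 5 1 2)) (.gap (.ru 17 (.ru 19 (.ru 21 (.ru 23 (.lc 0 5 8 6 (.rf 9) (.w4 5 7 8 1
    2)))))))) (.rf 1) (.gap (.rf 1))) (.rf 1) (.cmp 5 (.gap (.rf 1)) (.rf 1) (.gap (.rf 1))))
    (.rf 1) (.cmp 6 (.cmp 4 (.gap (.rf 1)) (.rf 1) (.gap (.rf 1))) (.rf 1) (.cmp 3 (.gap (.rf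
    1)) (.rf 1) (.gap (.rf 8))))))))) (.ru 20 (.c4 5 0 2 1 3)) (.gap (.ru 20 (.lc 5 2 7 3 (.w4 2
    0 5 1 3) (.c4 5 0 2 1 3)))))) (.ru 20 (.w4 2 0 5 1 3)) (.cmp 6 (.cmp 4 (.gap (.ru 18 (.ru 20
    (.lc 5 4 7 3 (.th 5 7 0 2 (.lc 5 7 2 6 (.w4 2 5 7 6 4) (.rf 9))) (.c4 5 0 2 1 3))))) (.cmp 2
    (.cmp 1 (.cmp 0 .mn (.rf 4) (.gap (.rf 8))) (.rf 1) (.cmp 5 (.gap (.rf 1)) (.rf 1) (.gap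
    (.rf 1)))) (.rf 1) (.cmp 6 (.cmp 4 (.gap (.rf 1)) (.rf 1) (.gap (.rf 1))) (.rf 1) (.cmp 3
    (.gap (.rf 1)) (.rf 1) (.gap (.rf 4))))) (.gap (.cmp 4 (.cmp 5 (.cmp 1 (.cmp 0 .mn (.rf 4)
    (.gap (.rf 8))) (.rf 1) (.gap (.rf 1))) (.rf 1) (.cmp 2 (.gap (.rf 1)) (.rf 1) (.gap (.rf
    1)))) (.rf 1) (.cmp 6 (.cmp 7 (.gap (.rf 1)) (.rf 1) (.gap (.rf 1))) (.rf 1) (.cmp 3 (.gap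
    (.rf 1)) (.rf 1) (.gap (.rf 4))))))) (.cmp 2 (.cmp 1 (.cmp 0 .mn (.rf 4) (.gap (.rf 8)))
    (.rf 1) (.cmp 5 (.gap (.rf 1)) (.rf 1) (.gap (.rf 1)))) (.rf 1) (.cmp 6 (.cmp 4 (.gap (.rf
    1)) (.rf 1) (.gap (.rf 1))) (.rf 1) (.cmp 3 (.gap (.rf 1)) (.rf 1) (.gap (.rf 4))))) (.cmp 3
    (.gap (.cmp 4 (.cmp 5 (.cmp 1 (.cmp 0 .mn (.rf 4) (.gap (.rf 8))) (.rf 1) (.gap (.rf 1)))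
    (.rf 1) (.cmp 2 (.gap (.rf 1)) (.rf 1) (.gap (.rf 1)))) (.rf 1) (.cmp 7 (.cmp 6 (.gap (.rf
    1)) (.rf 1) (.gap (.rf 1))) (.rf 1) (.cmp 3 (.gap (.rf 1)) (.rf 1) (.gap (.rf 4)))))) (.ru
    20 (.eq 3 3)) (.gap (.cmp 4 (.cmp 5 (.cmp 1 (.cmp 0 .mn (.rf 1) (.gap (.rf 1))) (.rf 1)
    (.gap (.rf 8))) (.rf 8) (.cmp 2 (.gap (.ru 21 (.lc 0 5 1 8 (.k4 0 5 1 2) (.lc 0 8 5 2 (.w4 2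
    0 5 1 8) (.c4 5 0 8 1 2))))) (.rf 4) (.gap (.rf 4)))) (.rf 4) (.cmp 3 (.cmp 6 (.gap (.rf 4))
    (.rf 4) (.gap (.rf 4))) (.rf 1) (.cmp 7 (.gap (.rf 1)) (.rf 1) (.gap (.rf 1))))))))) (.rf
    9))))) (.ru 16 (.lc 5 4 2 3 (.w4 2 0 5 1 3) (.rf 9))) (.gap (.ru 16 (.lc 5 4 2 6 (.lc 0 3 4
    6 (.k4 0 5 2 4) (.w4 2 0 5 4 6)) (.rf 9)))))))))))) (.rf 0) (.cmp 3 (.cmp 4 (.gap (.rf 0))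
    (.rf 0) (.gap (.rf 0))) (.rf 0) (.gap (.rf 0)))))) (.ru 13 (.cmp 2 (.cmp 1 (.cmp 0 .mn (.rf
    0) (.gap (.rf 2))) (.ru 12 (.k4 0 2 1 3)) (.gap (.ru 11 (.ru 12 (.ru 14 (.th 0 5 1 3 (.w4 3
    0 5 1 2))))))) (.rf 0) (.cmp 3 (.gap (.rf 0)) (.rf 0) (.gap (.rf 0))))) (.gap (.ru 13 (.cmp
    2 (.cmp 1 (.cmp 0 .mn (.rf 0) (.gap (.rf 2))) (.rf 3) (.gap (.ru 11 (.ru 12 (.ru 14 (.th 0 5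
    1 3 (.lc 0 3 5 4 (.rf 6) (.lc 0 2 5 3 (.c4 0 5 3 2 4) (.k4 0 5 2 4))))))))) (.rf 0) (.cmp 4
    (.cmp 3 (.gap (.rf 0)) (.rf 0) (.gap (.rf 0))) (.rf 0) (.gap (.rf 0))))))))

theorem chkStep2 : chk rulesStep2 treeStep2 rk0 none none T0 U0 = true := by
  decide +kernel

end Pool.Agent.Confl.Cert
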